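import Pool.Agent.H77RA.A2
import Pool.Agent.Helper970.V7.P_phi

/-!
# Subgroups of right-angled Artin groups: definitions
-/

set_option autoImplicit false
set_option linter.unusedSectionVars false

noncomputable section

namespace Pool.Agent.H77N

open Finset Pool.Agent.W326.DU Pool.Agent.H77RA Pool.Agent.Q18.HC.BB

section graph

variable {V : Type} [Fintype V] [LinearOrder V] (G : SimpleGraph V)

open Classical in
/-- the vertices adjacent to all vertices of `τ` (the vertices of the link of `τ`) -/
def lk (τ : Finset V) : Finset V := univ.filter fun v => ∀ u ∈ τ, G.Adj u v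

theorem mem_lk {τ : Finset V} {v : V} : v ∈ lk G τ ↔ ∀ u ∈ τ, G.Adj u v := by
  unfold lk
  simp

/-- the simplicial boundary -/
def sb {M : Type} [AddCommGroup M] (a : Finset V → M) : Finset V → M := bdR (fun _ => AddMonoidHom.id M) a

/-- The reduced rational homology, in degree `k - 1`, of the complex of the cliques contained in `S` is zero. -/
def QEx (S : Finset V) (k : ℕ) : Prop :=
  ∀ a : Finset V → ℚ, Sup G S k a → sb a = 0 → ∃ b, Sup G S (k + 1) b ∧ sb b = a

/-- the standard subgroup of the right-angled Artin group -/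
def para (S : Set V) : Subgroup (RAAG G.Adj) := Subgroup.closure (gen G.Adj '' S)

end graph

section coeff

variable {A K R : Type} [Group A] [Group K] [Ring R] (i : K →* A) (c : K →* R)

/-- The functions `f : A → R` with `f (i n * a) = f a * c n⁻¹` whose support is contained in finitely many cosets
`i(K) s`. -/
def FM : Submodule R (A → R) where
  carrier := {f | (∀ n a, f (i n * a) = f a * c n⁻¹) ∧ ∃ S : Finset A, ∀ a, f a ≠ 0 → ∃ s ∈ S, ∃ n, a = i n * s}
  zero_mem' := by
    refine ⟨fun n a => ?_, ∅, fun a h => absurd rfl h⟩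
    rw [Pi.zero_apply, Pi.zero_apply, zero_mul]
  add_mem' := by
    classical
    rintro f f' ⟨h1, S, h2⟩ ⟨h3, S', h4⟩
    refine ⟨fun n a => ?_, S ∪ S', fun a h => ?_⟩
    · rw [Pi.add_apply, Pi.add_apply, h1, h3, add_mul]
    · by_cases h0 : f a = 0
      · obtain ⟨s, hs, n, hn⟩ := h4 a (fun h5 => h (by rw [Pi.add_apply, h0, h5, add_zero]))
        exact ⟨s, mem_union_right _ hs, n, hn⟩
      · obtain ⟨s, hs, n, hn⟩ := h2 a h0
        exact ⟨s, mem_union_left _ hs, n, hn⟩
  smul_mem' := by
    rintro r f ⟨h1, S, h2⟩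
    refine ⟨fun n a => ?_, S, fun a h => h2 a fun h5 => h (by rw [Pi.smul_apply, h5, smul_zero])⟩
    rw [Pi.smul_apply, Pi.smul_apply, h1, smul_eq_mul, smul_eq_mul, mul_assoc]

/-- right translation -/
def rt (g : A) : FM i c →ₗ[R] FM i c where
  toFun f := ⟨fun a => f.1 (a * g⁻¹), by
    classical
    obtain ⟨h1, S, h2⟩ := f.2
    refine ⟨fun n a => ?_, S.image (fun s => s * g), fun a h => ?_⟩
    · change f.1 (i n * a * g⁻¹) = f.1 (a * g⁻¹) * c n⁻¹
      rw [mul_assoc, h1]
    · obtain ⟨s, hs, n, hn⟩ := h2 _ h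
      refine ⟨s * g, mem_image_of_mem _ hs, n, ?_⟩
      rw [← mul_assoc, ← hn, inv_mul_cancel_right]⟩
  map_add' _ _ := rfl
  map_smul' _ _ := rfl

theorem rt_apply (g : A) (f : FM i c) (a : A) : (rt i c g f).1 a = f.1 (a * g⁻¹) := rfl

theorem rt_one : rt i c 1 = LinearMap.id := by
  refine LinearMap.ext fun f => Subtype.ext (funext fun a => ?_)
  rw [rt_apply, inv_one, mul_one]
  rfl

/-- a right action -/
theorem rt_rt (g h : A) (f : FM i c) : rt i c g (rt i c h f) = rt i c (h * g) f := by
  refine Subtype.ext (funext fun a => ?_)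
  rw [rt_apply, rt_apply, rt_apply, mul_inv_rev, mul_assoc]

/-- the submodule generated by the `f u - f`, `u ∈ T` -/
def IM (T : Set A) : Submodule R (FM i c) := Submodule.span R {x | ∃ u ∈ T, ∃ f, x = rt i c u f - f}

/-- The right action of the group ring. -/
def ra : MonoidAlgebra ℤ A →+ (FM i c →+ FM i c) :=
  (Finsupp.liftAddHom fun g => (zmultiplesHom (FM i c →+ FM i c)) (rt i c g).toAddMonoidHom).comp
    MonoidAlgebra.coeffAddEquiv.toAddMonoidHom

theorem ra_single (g : A) (m : ℤ) (f : FM i c) : ra i c (MonoidAlgebra.single g m) f = m • rt i c g f := by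
  have h : ra i c (MonoidAlgebra.single g m) = m • (rt i c g).toAddMonoidHom := by
    change (Finsupp.liftAddHom fun g => (zmultiplesHom (FM i c →+ FM i c)) (rt i c g).toAddMonoidHom)
      (Finsupp.single g m) = _
    rw [Finsupp.liftAddHom_apply_single]
    rfl
  rw [h]
  rfl

theorem ra_of (g : A) (f : FM i c) : ra i c (MonoidAlgebra.of ℤ A g) f = rt i c g f := by
  have h := ra_single i c g 1 f
  rw [one_smul] at h
  exact h

/-- row vectors times matrices -/
def mv {a b : ℕ} (y : Fin a → FM i c) (D : Matrix (Fin a) (Fin b) (MonoidAlgebra ℤ A)) : Fin b → FM i c :=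
  fun j => ∑ k, ra i c (D k j) (y k)

/-- right multiplication by `gen v - 1` -/
def RF {V : Type} {ad : V → V → Prop} {K R : Type} [Group K] [Ring R] (i : K →* RAAG ad) (c : K →* R) (v : V) :
    FM i c →+ FM i c := (rt i c (gen ad v) - LinearMap.id).toAddMonoidHom

theorem RF_apply {V : Type} {ad : V → V → Prop} {K R : Type} [Group K] [Ring R] (i : K →* RAAG ad) (c : K →* R) (v : V)
    (f : FM i c) : RF i c v f = rt i c (gen ad v) f - f := rfl

end coeff

end Pool.Agent.H77N
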