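import Pool.Agent.H77N.Stm

/-!
# Theorem N: stub LIN (exactness over `ℚ` implies exactness with coefficients in a quotient module)
-/

set_option autoImplicit false
set_option linter.unusedSectionVars false

noncomputable section

namespace Pool.Agent.H77N.LIN

open Finset Pool.Agent.W326.DU Pool.Agent.H77RA Pool.Agent.Q18.HC.BB

variable {V : Type} [Fintype V] [LinearOrder V]

/-- a generalised inverse of a linear map -/
theorem gen_inv {A B : Type} [AddCommGroup A] [AddCommGroup B] [Module ℚ A] [Module ℚ B] (f : A →ₗ[ℚ] B) :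
    ∃ g : B →ₗ[ℚ] A, ∀ x, f (g (f x)) = f x := by
  obtain ⟨g0, hg0⟩ := LinearMap.exists_rightInverse_of_surjective f.rangeRestrict f.range_rangeRestrict
  obtain ⟨g, hg⟩ := LinearMap.exists_extend g0
  refine ⟨g, fun x => ?_⟩
  have h1 : g (f x) = g0 (f.rangeRestrict x) := by
    have := LinearMap.congr_fun hg (f.rangeRestrict x)
    exact this
  have h2 := LinearMap.congr_fun hg0 (f.rangeRestrict x)
  have h3 := congrArg Subtype.val h2
  rw [h1]
  exact h3

/-- the simplicial boundary over `ℚ` as a linear map -/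
def dL : (Finset V → ℚ) →ₗ[ℚ] (Finset V → ℚ) where
  toFun := sb
  map_add' x y := by
    funext T
    exact bdR_add _ x y T
  map_smul' q x := by
    funext T
    change sb (q • x) T = q • sb x T
    unfold sb bdR
    rw [smul_sum]
    refine sum_congr rfl fun v _ => ?_
    simp only [AddMonoidHom.id_apply, Pi.smul_apply, smul_eq_mul, zsmul_eq_mul]
    ring

/-- chains -/
def CH (G : SimpleGraph V) (S : Finset V) (k : ℕ) : Submodule ℚ (Finset V → ℚ) where
  carrier := {x | Sup G S k x}
  zero_mem' := fun T h => absurd rfl h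
  add_mem' := by
    intro x y hx hy T h
    by_cases h0 : x T = 0
    · exact hy T fun h1 => h (by rw [Pi.add_apply, h0, h1, add_zero])
    · exact hx T h0
  smul_mem' := by
    intro q x hx T h
    exact hx T fun h1 => h (by rw [Pi.smul_apply, h1, smul_zero])

/-- the homotopy over `ℚ` -/
theorem homotopy (G : SimpleGraph V) (S : Finset V) (k : ℕ) (hQ : QEx G S k) :
    ∃ s h : (Finset V → ℚ) →ₗ[ℚ] (Finset V → ℚ), (∀ x, s x ∈ CH G S (k + 1)) ∧
      ∀ x ∈ CH G S k, dL (s x) = x - h (dL x) := by
  obtain ⟨g, hg⟩ := gen_inv ((dL : (Finset V → ℚ) →ₗ[ℚ] _).domRestrict (CH G S k))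
  obtain ⟨g', hg'⟩ := gen_inv ((dL : (Finset V → ℚ) →ₗ[ℚ] _).domRestrict (CH G S (k + 1)))
  refine ⟨(CH G S (k + 1)).subtype ∘ₗ g' ∘ₗ (LinearMap.id - (CH G S k).subtype ∘ₗ g ∘ₗ dL),
    (CH G S k).subtype ∘ₗ g, fun x => (g' _).2, fun x hx => ?_⟩
  have h1 : dL ((g (dL x)).1) = dL x := hg ⟨x, hx⟩
  obtain ⟨y, hy⟩ : ∃ y, y = x - (g (dL x)).1 := ⟨_, rfl⟩
  have hy1 : y ∈ CH G S k := by
    rw [hy]
    exact Submodule.sub_mem _ hx (g (dL x)).2
  have hy2 : sb y = 0 := by
    change dL y = 0
    rw [hy, map_sub, h1, sub_self]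
  obtain ⟨b, hb1, hb2⟩ := hQ y hy1 hy2
  have h3 : dL ((g' y).1) = y := by
    have h4 := hg' ⟨b, hb1⟩
    have h5 : ((dL : (Finset V → ℚ) →ₗ[ℚ] _).domRestrict (CH G S (k + 1))) ⟨b, hb1⟩ = y := hb2
    rw [h5] at h4
    exact h4
  change dL ((g' (x - (g (dL x)).1)).1) = x - (g (dL x)).1
  rw [← hy]
  exact h3

section

variable {U M : Type} [Ring U] [AddCommGroup M] [Module U M] (κ : ℚ →+* U)

/-- a rational chain times an element of `M` -/
def tn (x : Finset V → ℚ) (m : M) : Finset V → M := fun T => κ (x T) • m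

theorem sb_tn (x : Finset V → ℚ) (m : M) : sb (tn κ x m) = tn κ (sb x) m := by
  funext T
  unfold sb tn bdR
  rw [map_sum, sum_smul]
  refine sum_congr rfl fun v _ => ?_
  simp only [AddMonoidHom.id_apply, zsmul_eq_mul, map_mul, map_intCast, mul_smul]
  rw [← Int.cast_smul_eq_zsmul U]

theorem tn_sub (x y : Finset V → ℚ) (m : M) : tn κ (x - y) m = tn κ x m - tn κ y m := by
  funext T
  simp only [tn, Pi.sub_apply, map_sub, sub_smul]

/-- the boundary as an additive map -/
def sbH : (Finset V → M) →+ (Finset V → M) where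
  toFun := sb
  map_zero' := by
    funext T
    unfold sb bdR
    exact sum_eq_zero fun v _ => by simp
  map_add' x y := by
    funext T
    exact bdR_add _ x y T

theorem sum_tn (a : Finset V → M) : ∑ T : Finset V, tn κ (Pi.single T (1 : ℚ)) (a T) = a := by
  funext T'
  rw [Finset.sum_apply, Finset.sum_eq_single T']
  · simp [tn]
  · intro T _ hT
    simp only [tn]
    rw [Pi.single_eq_of_ne (Ne.symm hT), map_zero, zero_smul]
  · intro h
    exact absurd (mem_univ _) h

end

theorem t : LIN := by
  intro V _ _ G S k U M _ _ _ κ I hQ a ha hI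
  obtain ⟨s, h, hs, hh⟩ := homotopy G S k hQ
  refine ⟨∑ T : Finset V, tn κ (s (Pi.single T 1)) (a T), ?_, ?_⟩
  · intro T' hT'
    rw [Finset.sum_apply] at hT'
    obtain ⟨T, _, hT⟩ := Finset.exists_ne_zero_of_sum_ne_zero hT'
    refine hs (Pi.single T 1) T' fun h0 => hT ?_
    simp only [tn]
    rw [h0, map_zero, zero_smul]
  · -- the boundary
    have h1 : sb (∑ T : Finset V, tn κ (s (Pi.single T 1)) (a T)) =
        ∑ T : Finset V, (tn κ (Pi.single T 1) (a T) - tn κ (h (dL (Pi.single T 1))) (a T)) := by
      change sbH _ = _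
      rw [map_sum]
      refine sum_congr rfl fun T _ => ?_
      change sb _ = _
      rw [sb_tn]
      by_cases h0 : a T = 0
      · funext T'
        simp [tn, h0]
      · have hT : (Pi.single T (1 : ℚ) : Finset V → ℚ) ∈ CH G S k := by
          intro T' hT'
          have : T' = T := by
            by_contra hne
            exact hT' (Pi.single_eq_of_ne hne 1)
          rw [this]
          exact ha T h0
        have h2 : sb (s (Pi.single T 1)) = Pi.single T 1 - h (dL (Pi.single T 1)) := hh _ hT
        rw [h2, tn_sub]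
    have h3 : ∑ T : Finset V, tn κ (h (dL (Pi.single T 1))) (a T) =
        ∑ T' : Finset V, tn κ (h (Pi.single T' 1)) (sb a T') := by
      have h4 : ∀ x : Finset V → ℚ, h x = ∑ T' : Finset V, x T' • h (Pi.single T' 1) := by
        intro x
        conv_lhs => rw [show x = ∑ T' : Finset V, x T' • (Pi.single T' (1 : ℚ) : Finset V → ℚ) by
          funext T''
          rw [Finset.sum_apply, Finset.sum_eq_single T'']
          · simp
          · intro T _ hT
            rw [Pi.smul_apply, Pi.single_eq_of_ne (Ne.symm hT), smul_zero]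
          · intro h
            exact absurd (mem_univ _) h]
        rw [map_sum]
        refine sum_congr rfl fun T' _ => ?_
        rw [map_smul]
      have h5 : ∀ T' : Finset V, sb a T' = ∑ T : Finset V, κ ((dL (Pi.single T (1 : ℚ))) T') • a T := by
        intro T'
        have h6 : sb a = ∑ T : Finset V, tn κ (dL (Pi.single T (1 : ℚ))) (a T) := by
          conv_lhs => rw [← sum_tn κ a]
          change sbH _ = _
          rw [map_sum]
          refine sum_congr rfl fun T _ => ?_
          exact sb_tn κ _ _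
        rw [h6, Finset.sum_apply]
        rfl
      funext T₀
      rw [Finset.sum_apply, Finset.sum_apply]
      have h7 : ∀ T : Finset V, tn κ (h (dL (Pi.single T 1))) (a T) T₀ =
          ∑ T' : Finset V, κ ((dL (Pi.single T (1 : ℚ))) T' * h (Pi.single T' 1) T₀) • a T := by
        intro T
        simp only [tn]
        conv_lhs => rw [h4 (dL (Pi.single T 1))]
        rw [Finset.sum_apply, map_sum, sum_smul]
        rfl
      simp only [h7]
      rw [Finset.sum_comm]
      refine sum_congr rfl fun T' _ => ?_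
      simp only [tn]
      rw [h5 T', smul_sum]
      refine sum_congr rfl fun T _ => ?_
      rw [← mul_smul, ← map_mul, mul_comm]
    intro T₀
    rw [h1, sum_sub_distrib, sum_tn, h3, Pi.sub_apply, sub_sub_cancel_left]
    apply Submodule.neg_mem
    rw [Finset.sum_apply]
    exact Submodule.sum_mem _ fun T' _ => Submodule.smul_mem _ _ (hI T')

end Pool.Agent.H77N.LIN
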