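import Pool.Agent.H77RA.A1

/-!
# Subgroups of right-angled Artin groups (project N of helper77): linear algebra of the Koszul type complex (helper39)
-/

set_option autoImplicit false
set_option linter.unusedSectionVars false

namespace Pool.Agent.H77N.ALG

open Finset Pool.Agent.W326.DU Pool.Agent.H77RA Pool.Agent.W304.DU

section

variable {V : Type} [Fintype V] [LinearOrder V] {G : SimpleGraph V} {M : Type} [AddCommGroup M] {R : V → M →+ M}

/-- the endomorphisms outside `X` are replaced by the identity -/
def RX (R : V → M →+ M) (X : Finset V) (v : V) : M →+ M := if v ∈ X then R v else AddMonoidHom.id M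

lemma RX_mem {X : Finset V} {v : V} (h : v ∈ X) (x : M) : RX R X v x = R v x := by
  unfold RX
  rw [if_pos h]

lemma RX_not {X : Finset V} {v : V} (h : v ∉ X) (x : M) : RX R X v x = x := by
  unfold RX
  rw [if_neg h]
  rfl

lemma RX_comm (hcomm : ∀ a b, G.Adj a b → ∀ x, R a (R b x) = R b (R a x)) (X : Finset V) {a b : V}
    (h : G.Adj a b) (x : M) : R a (RX R X b x) = RX R X b (R a x) := by
  by_cases hb : b ∈ X
  · rw [RX_mem hb, RX_mem hb, hcomm a b h]
  · rw [RX_not hb, RX_not hb]

lemma RX_comm2 (hcomm : ∀ a b, G.Adj a b → ∀ x, R a (R b x) = R b (R a x)) (X : Finset V) (a b : V)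
    (h : G.Adj a b) (x : M) : RX R X a (RX R X b x) = RX R X b (RX R X a x) := by
  by_cases ha : a ∈ X
  · rw [RX_mem ha, RX_mem ha, RX_comm hcomm X h]
  · rw [RX_not ha, RX_not ha]

lemma R_Im (hcomm : ∀ a b, G.Adj a b → ∀ x, R a (R b x) = R b (R a x)) {τ : Set V} {v : V}
    (hv : ∀ u ∈ τ, G.Adj u v) {x : M} (hx : x ∈ Im R τ) : R v x ∈ Im R τ := by
  obtain ⟨y, hy, rfl⟩ := mem_Im R τ x hx
  rw [map_sum]
  apply sum_mem
  intro w _
  by_cases hw : w ∈ τ
  · rw [← hcomm w v (hv w hw)]
    exact range_mem_Im R τ w hw _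
  · rw [hy w hw, map_zero, map_zero]
    exact zero_mem _

lemma RX_Im (hcomm : ∀ a b, G.Adj a b → ∀ x, R a (R b x) = R b (R a x)) (X : Finset V) {τ : Set V} {v : V}
    (hv : ∀ u ∈ τ, G.Adj u v) {x : M} (hx : x ∈ Im R τ) : RX R X v x ∈ Im R τ := by
  by_cases h : v ∈ X
  · rw [RX_mem h]
    exact R_Im hcomm hv hx
  · rw [RX_not h]
    exact hx

lemma bdR_Im (hcomm : ∀ a b, G.Adj a b → ∀ x, R a (R b x) = R b (R a x)) (X : Finset V) {τ : Set V}
    {c : Finset V → M} (hc0 : ∀ T, c T ≠ 0 → ∀ v ∈ T, ∀ u ∈ τ, G.Adj u v) (hc : ∀ T, c T ∈ Im R τ) (T : Finset V) :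
    bdR (RX R X) c T ∈ Im R τ := by
  unfold bdR
  apply sum_mem
  intro v _
  apply zsmul_mem
  by_cases h0 : c (insert v T) = 0
  · rw [h0, map_zero]
    exact zero_mem _
  · exact RX_Im hcomm X (hc0 _ h0 v (mem_insert_self _ _)) (hc _)

lemma Sup_bdR {S : Finset V} {n : ℕ} {w : Finset V → M} (R' : V → M →+ M) (hw : Sup G S (n + 1) w) :
    Sup G S n (bdR R' w) := by
  intro T hT
  unfold bdR at hT
  obtain ⟨v, hv, h1⟩ := exists_ne_zero_of_sum_ne_zero hT
  have h2 : w (insert v T) ≠ 0 := by
    intro h
    apply h1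
    rw [h, map_zero, smul_zero]
  obtain ⟨h3, h4, h5⟩ := hw _ h2
  rw [card_insert_of_notMem (mem_compl.mp hv)] at h5
  exact ⟨(subset_insert _ _).trans h3, h4.subset (by simp), by omega⟩

lemma mem_Im_insert {τ : Set V} {x : V} {m : M} (hm : m ∈ Im R (insert x τ)) : ∃ q, m - R x q ∈ Im R τ := by
  classical
  obtain ⟨y, hy, rfl⟩ := mem_Im R _ m hm
  refine ⟨y x, ?_⟩
  rw [← add_sum_erase univ _ (mem_univ x), add_sub_cancel_left]
  apply sum_mem
  intro w hw
  by_cases h : w ∈ τ
  · exact range_mem_Im R τ w h _
  · rw [hy w, map_zero]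
    · exact zero_mem _
    · intro h2
      rcases h2 with h2 | h2
      · exact (mem_erase.mp hw).1 h2
      · exact h h2

lemma Im_mono {σ τ : Set V} (h : σ ⊆ τ) {m : M} (hm : m ∈ Im R σ) : m ∈ Im R τ := by
  classical
  obtain ⟨y, hy, rfl⟩ := mem_Im R σ m hm
  apply sum_mem
  intro w _
  by_cases h2 : w ∈ σ
  · exact range_mem_Im R τ w (h h2) _
  · rw [hy w h2, map_zero]
    exact zero_mem _

/-- multiply by `R x` on the sets containing `x` -/
def Phi (R : V → M →+ M) (x : V) (z : Finset V → M) (T : Finset V) : M := if x ∈ T then R x (z T) else z T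

lemma Phi_sub (x : V) (z w : Finset V → M) (T : Finset V) : Phi R x (z - w) T = Phi R x z T - Phi R x w T := by
  unfold Phi
  split_ifs
  · rw [Pi.sub_apply, map_sub]
  · rfl

lemma Phi_bdR (hcomm : ∀ a b, G.Adj a b → ∀ x, R a (R b x) = R b (R a x)) {X : Finset V} {x : V} (hx : x ∉ X)
    {z : Finset V → M} (hz : ∀ T, z T ≠ 0 → G.IsClique (T : Set V)) (T : Finset V) :
    bdR (RX R X) (Phi R x z) T = Phi R x (bdR (RX R (insert x X)) z) T := by
  by_cases hT : x ∈ T
  · unfold bdR Phi
    rw [if_pos hT, map_sum]
    refine sum_congr rfl fun v hv => ?_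
    have hvT : v ∉ T := mem_compl.mp hv
    have hvx : v ≠ x := fun h => hvT (h ▸ hT)
    rw [if_pos (mem_insert_of_mem hT), map_zsmul]
    congr 1
    by_cases h0 : z (insert v T) = 0
    · rw [h0, map_zero, map_zero, map_zero, map_zero]
    · have hadj : G.Adj x v := hz _ h0 (by simp [hT]) (by simp) hvx.symm
      by_cases hvX : v ∈ X
      · rw [RX_mem hvX, RX_mem (mem_insert_of_mem hvX), hcomm x v hadj]
      · rw [RX_not hvX, RX_not (by rw [mem_insert, not_or]; exact ⟨hvx, hvX⟩)]
  · unfold bdR Phi
    rw [if_neg hT]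
    refine sum_congr rfl fun v hv => ?_
    have hvT : v ∉ T := mem_compl.mp hv
    congr 1
    by_cases hvx : v = x
    · subst hvx
      rw [if_pos (mem_insert_self _ _), RX_not hx, RX_mem (mem_insert_self _ _)]
    · rw [if_neg (by rw [mem_insert, not_or]; exact ⟨fun h => hvx h.symm, hT⟩)]
      by_cases hvX : v ∈ X
      · rw [RX_mem hvX, RX_mem (mem_insert_of_mem hvX)]
      · rw [RX_not hvX, RX_not (by rw [mem_insert, not_or]; exact ⟨hvx, hvX⟩)]

lemma sgn_sq (x : V) (T : Finset V) : sgn x T * sgn x T = 1 := by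
  unfold sgn
  rw [← mul_pow]
  norm_num

lemma sgn_erase (x : V) (T : Finset V) : sgn x (T.erase x) = sgn x T := by
  unfold sgn
  congr 2
  ext u
  simp only [mem_filter, mem_erase]
  constructor
  · rintro ⟨⟨_, h1⟩, h2⟩
    exact ⟨h1, h2⟩
  · rintro ⟨h1, h2⟩
    exact ⟨⟨h2.ne, h1⟩, h2⟩

lemma sgn_swap {x v : V} {T : Finset V} (hx : x ∉ T) (hv : v ∉ T) (hvx : v ≠ x) :
    sgn v T * sgn x (insert v T) = - (sgn x T * sgn v (insert x T)) := by
  rw [sgn_insert hv, sgn_insert hx]
  rcases lt_or_gt_of_ne hvx with h | h
  · rw [if_pos h, if_neg (not_lt.mpr h.le)]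
    ring
  · rw [if_neg (not_lt.mpr h.le), if_pos h]
    ring

/-- the part containing `x` -/
def cut (x : V) (y : Finset V → M) (T : Finset V) : M := if x ∈ T then 0 else sgn x T • y (insert x T)

lemma bdR_cut (R' : V → M →+ M) (x : V) (y : Finset V → M) {T : Finset V} (hT : x ∉ T) :
    bdR R' (cut x y) T = - (sgn x T • bdR R' y (insert x T)) := by
  unfold bdR
  rw [← add_sum_erase _ _ (mem_compl.mpr hT)]
  have h0 : cut x y (insert x T) = 0 := by
    unfold cut
    rw [if_pos (mem_insert_self _ _)]
  rw [h0, map_zero, smul_zero, zero_add, smul_sum, ← sum_neg_distrib]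
  have h3 : (insert x T)ᶜ = Tᶜ.erase x := by
    ext a; simp only [mem_compl, mem_insert, mem_erase]; tauto
  rw [h3]
  refine sum_congr rfl fun v hv => ?_
  obtain ⟨hvx, hvT⟩ := mem_erase.mp hv
  rw [mem_compl] at hvT
  have h1 : cut x y (insert v T) = sgn x (insert v T) • y (insert v (insert x T)) := by
    unfold cut
    rw [if_neg (by rw [mem_insert, not_or]; exact ⟨hvx.symm, hT⟩), Finset.insert_comm]
  rw [h1, map_zsmul, smul_smul, smul_smul, sgn_swap hT hvT hvx, neg_smul]

lemma bdR_cut' (R' : V → M →+ M) (x : V) (y : Finset V → M) {T : Finset V} (hT : x ∈ T) :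
    bdR R' (cut x y) T = 0 := by
  unfold bdR
  refine sum_eq_zero fun v _ => ?_
  have h0 : cut x y (insert v T) = 0 := by
    unfold cut
    rw [if_pos (mem_insert_of_mem hT)]
  rw [h0, map_zero, smul_zero]

/-- the cone -/
def cone (x : V) (w : Finset V → M) (T : Finset V) : M := if x ∈ T then sgn x T • w (T.erase x) else 0

lemma bdR_cone (R' : V → M →+ M) {x : V} {w : Finset V → M} (hw : ∀ T, x ∈ T → w T = 0) {T : Finset V}
    (hT : x ∈ T) : bdR R' (cone x w) T = - (sgn x T • bdR R' w (T.erase x)) := by
  unfold bdR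
  have h2 : (T.erase x)ᶜ = insert x Tᶜ := by
    ext a; simp only [mem_compl, mem_insert, mem_erase]; tauto
  rw [h2, sum_insert (by simp [hT]), hw (insert x (T.erase x)) (mem_insert_self _ _), map_zero, smul_zero, zero_add,
    smul_sum, ← sum_neg_distrib]
  refine sum_congr rfl fun v hv => ?_
  have hvT : v ∉ T := mem_compl.mp hv
  have hvx : v ≠ x := fun h => hvT (h ▸ hT)
  have h1 : cone x w (insert v T) = sgn x (insert v T) • w (insert v (T.erase x)) := by
    unfold cone
    rw [if_pos (mem_insert_of_mem hT), erase_insert_of_ne hvx]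
  have hvT' : v ∉ T.erase x := fun h => hvT (mem_of_mem_erase h)
  have h4 : sgn v T * sgn x (insert v T) = - (sgn x T * sgn v (T.erase x)) := by
    have h5 := sgn_swap (notMem_erase x T) hvT' hvx
    rw [insert_erase hT] at h5
    have h6 : sgn x (insert v T) = sgn x (insert v (T.erase x)) := by
      rw [← sgn_erase x (insert v T), erase_insert_of_ne hvx]
    have h7 := sgn_insert (v := v) (notMem_erase x T)
    rw [insert_erase hT] at h7
    rw [h6, sgn_insert hvT', ← sgn_erase x T, h7]
    rcases lt_or_gt_of_ne hvx with h | h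
    · rw [if_pos h, if_neg (not_lt.mpr h.le)]
      ring
    · rw [if_neg (not_lt.mpr h.le), if_pos h]
      ring
  rw [h1, map_zsmul, smul_smul, smul_smul, h4, neg_smul]

/-- the induction -/
theorem core (k : ℕ) (L : Finset V → Finset V) (hL : ∀ τ v, v ∈ L τ ↔ ∀ u ∈ τ, G.Adj u v)
    (hcomm : ∀ a b, G.Adj a b → ∀ x, R a (R b x) = R b (R a x))
    (hinj : ∀ (τ : Finset V) (v : V), G.IsClique (τ : Set V) → v ∈ L τ → ∀ x, R v x ∈ Im R (τ : Set V) →
      x ∈ Im R (τ : Set V))
    (hex : ∀ τ : Finset V, G.IsClique (τ : Set V) → ∀ a : Finset V → M, Sup G (L τ) k a →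
      (∀ T, bdR (fun _ => AddMonoidHom.id M) a T ∈ Im R (τ : Set V)) →
      ∃ b, Sup G (L τ) (k + 1) b ∧ ∀ T, bdR (fun _ => AddMonoidHom.id M) b T - a T ∈ Im R (τ : Set V))
    (X : Finset V) : ∀ τ : Finset V, G.IsClique (τ : Set V) → ∀ z : Finset V → M, Sup G (L τ) k z →
      (∀ T, bdR (RX R X) z T ∈ Im R (τ : Set V)) →
      ∃ w, Sup G (L τ) (k + 1) w ∧ ∀ T, bdR (RX R X) w T - z T ∈ Im R (τ : Set V) := by
  classical
  induction X using Finset.induction_on with
  | empty =>
    have h : RX R ∅ = fun _ => AddMonoidHom.id M := by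
      funext v
      unfold RX
      rw [if_neg (notMem_empty _)]
    rw [h]
    exact hex
  | insert x X hxX ih =>
    intro τ hτ z hz hbz
    by_cases hx : x ∈ L τ
    · have hxτ : ∀ u ∈ τ, G.Adj u x := (hL τ x).mp hx
      have hxτ' : ∀ u ∈ (τ : Set V), G.Adj u x := fun u hu => hxτ u (mem_coe.mp hu)
      have hmem : ∀ (n : ℕ) (c : Finset V → M), Sup G (L τ) n c → ∀ T, c T ≠ 0 → ∀ v ∈ T, ∀ u ∈ (τ : Set V),
          G.Adj u v := by
        intro n c hc T hT v hv u hu
        exact (hL τ v).mp ((hc T hT).1 hv) u (mem_coe.mp hu)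
      -- the chain `y`
      obtain ⟨y, hy, hby⟩ := ih τ hτ (Phi R x z) (by
        intro T hT
        apply hz T
        intro h0
        apply hT
        unfold Phi
        rw [h0, map_zero, ite_self]) (by
        intro T
        rw [Phi_bdR hcomm hxX (fun T hT => (hz T hT).2.1)]
        unfold Phi
        split_ifs
        · exact R_Im hcomm hxτ' (hbz T)
        · exact hbz T)
      -- the clique `insert x τ`
      have hτx : G.IsClique ((insert x τ : Finset V) : Set V) := by
        intro a ha b hb hab
        rw [mem_coe, mem_insert] at ha hb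
        rcases ha with rfl | ha
        · rcases hb with rfl | hb
          · exact absurd rfl hab
          · exact (hxτ b hb).symm
        · rcases hb with rfl | hb
          · exact hxτ a ha
          · exact hτ (mem_coe.mpr ha) (mem_coe.mpr hb) hab
      have hcoe : ((insert x τ : Finset V) : Set V) = insert x (τ : Set V) := by simp
      have hsub : (τ : Set V) ⊆ ((insert x τ : Finset V) : Set V) := by
        rw [hcoe]
        exact Set.subset_insert _ _
      have hRx : ∀ m, R x m ∈ Im R ((insert x τ : Finset V) : Set V) := fun m =>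
        range_mem_Im R _ x (by rw [hcoe]; exact Set.mem_insert _ _) m
      obtain ⟨w', hw', hbw'⟩ := ih (insert x τ) hτx (cut x y) (by
        intro T hT
        have h1 : x ∉ T := by
          intro h
          apply hT
          unfold cut
          rw [if_pos h]
        have h2 : y (insert x T) ≠ 0 := by
          intro h
          apply hT
          unfold cut
          rw [if_neg h1, h, smul_zero]
        obtain ⟨h3, h4, h5⟩ := hy _ h2
        rw [card_insert_of_notMem h1] at h5
        refine ⟨?_, h4.subset (by simp), by omega⟩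
        intro v hv
        rw [hL]
        intro u hu
        rw [mem_insert] at hu
        rcases hu with rfl | hu
        · exact h4 (by simp) (by simp [hv]) (fun h => h1 (h ▸ hv))
        · exact (hL τ v).mp (h3 (mem_insert_of_mem hv)) u hu) (by
        intro T
        by_cases hT : x ∈ T
        · rw [bdR_cut' _ _ _ hT]
          exact zero_mem _
        · rw [bdR_cut _ _ _ hT]
          apply neg_mem
          apply zsmul_mem
          have h1 := Im_mono hsub (hby (insert x T))
          have h2 : Phi R x z (insert x T) ∈ Im R ((insert x τ : Finset V) : Set V) := by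
            unfold Phi
            rw [if_pos (mem_insert_self _ _)]
            exact hRx _
          have h3 := add_mem h1 h2
          rwa [sub_add_cancel] at h3)
      have hw'x : ∀ T, x ∈ T → w' T = 0 := by
        intro T hT
        by_contra h
        have h1 := (hL (insert x τ) x).mp ((hw' T h).1 hT) x (mem_insert_self _ _)
        exact G.loopless.irrefl x h1
      have hcs : Sup G (L τ) (k + 2) (cone x w') := by
        intro T hT
        have h1 : x ∈ T := by
          by_contra h
          apply hT
          unfold cone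
          rw [if_neg h]
        have h2 : w' (T.erase x) ≠ 0 := by
          intro h
          apply hT
          unfold cone
          rw [if_pos h1, h, smul_zero]
        obtain ⟨h3, h4, h5⟩ := hw' _ h2
        rw [card_erase_of_mem h1] at h5
        have h6 := card_pos.mpr ⟨x, h1⟩
        have h7 : ∀ v ∈ T, v ≠ x → v ∈ L τ ∧ G.Adj x v := by
          intro v hv hvx
          have h8 := (hL _ v).mp (h3 (mem_erase.mpr ⟨hvx, hv⟩))
          exact ⟨(hL τ v).mpr fun u hu => h8 u (mem_insert_of_mem hu), h8 x (mem_insert_self _ _)⟩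
        refine ⟨?_, ?_, by omega⟩
        · intro v hv
          by_cases hvx : v = x
          · rw [hvx]
            exact hx
          · exact (h7 v hv hvx).1
        · intro a ha b hb hab
          rw [mem_coe] at ha hb
          by_cases hax : a = x
          · rw [hax]
            exact (h7 b hb (fun h => hab (hax.trans h.symm))).2
          · by_cases hbx : b = x
            · rw [hbx]
              exact (h7 a ha hax).2.symm
            · exact h4 (mem_coe.mpr (mem_erase.mpr ⟨hax, ha⟩)) (mem_coe.mpr (mem_erase.mpr ⟨hbx, hb⟩)) hab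
      set y' : Finset V → M := y + bdR (RX R X) (cone x w') with hy'
      have hy's : Sup G (L τ) (k + 1) y' := by
        intro T hT
        by_cases h0 : y T = 0
        · have h1 : bdR (RX R X) (cone x w') T ≠ 0 := by
            intro h
            apply hT
            rw [hy', Pi.add_apply, h0, h, add_zero]
          exact Sup_bdR _ hcs T h1
        · exact hy T h0
      have hy'b : ∀ T, bdR (RX R X) y' T - Phi R x z T ∈ Im R (τ : Set V) := by
        intro T
        rw [hy', bdR_add, bdR_bdR (G := G) (RX_comm2 hcomm X) (fun T hT => (hcs T hT).2.1), Pi.zero_apply, add_zero]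
        exact hby T
      have hy'x : ∀ T, x ∈ T → y' T ∈ Im R ((insert x τ : Finset V) : Set V) := by
        intro T hT
        rw [hy', Pi.add_apply, bdR_cone _ hw'x hT]
        have h1 := hbw' (T.erase x)
        have h2 : cut x y (T.erase x) = sgn x T • y T := by
          unfold cut
          rw [if_neg (notMem_erase _ _), insert_erase hT, sgn_erase]
        rw [h2] at h1
        have h3 := neg_mem (zsmul_mem h1 (sgn x T))
        have h4 : -(sgn x T • (bdR (RX R X) w' (T.erase x) - sgn x T • y T)) =
            y T + -(sgn x T • bdR (RX R X) w' (T.erase x)) := by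
          rw [smul_sub, smul_smul, sgn_sq, one_smul]
          abel
        rwa [h4] at h3
      have hq : ∀ T, ∃ q : M, (y' T = 0 → q = 0) ∧ (x ∈ T → y' T - R x q ∈ Im R (τ : Set V)) := by
        intro T
        by_cases h0 : y' T = 0
        · refine ⟨0, fun _ => rfl, fun _ => ?_⟩
          rw [h0, map_zero, sub_zero]
          exact zero_mem _
        · by_cases hT : x ∈ T
          · have h1 := hy'x T hT
            rw [hcoe] at h1
            obtain ⟨q, hq⟩ := mem_Im_insert h1
            exact ⟨q, fun h => absurd h h0, fun _ => hq⟩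
          · exact ⟨0, fun _ => rfl, fun h => absurd h hT⟩
      choose q hq0 hq1 using hq
      set u : Finset V → M := fun T => if x ∈ T then q T else y' T with hu
      have hus : Sup G (L τ) (k + 1) u := by
        intro T hT
        apply hy's T
        intro h0
        apply hT
        simp only [hu]
        split_ifs
        · exact hq0 T h0
        · exact h0
      have hPu : ∀ T, Phi R x u T - y' T ∈ Im R (τ : Set V) := by
        intro T
        unfold Phi
        by_cases hT : x ∈ T
        · rw [if_pos hT]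
          simp only [hu, if_pos hT]
          have := neg_mem (hq1 T hT)
          rwa [neg_sub] at this
        · rw [if_neg hT]
          simp only [hu, if_neg hT]
          rw [sub_self]
          exact zero_mem _
      refine ⟨u, hus, fun T => ?_⟩
      have h1 : bdR (RX R X) (Phi R x u - y') T ∈ Im R (τ : Set V) := by
        apply bdR_Im hcomm X _ hPu
        intro T' hT' v hv w hw
        by_cases h0 : y' T' = 0
        · have h2 : u T' ≠ 0 := by
            intro h
            apply hT'
            rw [h0, sub_zero]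
            unfold Phi
            rw [h, map_zero, ite_self]
          exact hmem _ _ hus T' h2 v hv w hw
        · exact hmem _ _ hy's T' h0 v hv w hw
      rw [bdR_sub, Phi_bdR hcomm hxX (fun T hT => (hus T hT).2.1)] at h1
      have h2 := add_mem h1 (hy'b T)
      rw [sub_add_sub_cancel, ← Phi_sub] at h2
      unfold Phi at h2
      by_cases hT : x ∈ T
      · rw [if_pos hT] at h2
        exact hinj τ x hτ hx _ h2
      · rw [if_neg hT] at h2
        exact h2
    · have hagree : ∀ (n : ℕ) (c : Finset V → M), Sup G (L τ) n c → ∀ T,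
          bdR (RX R (insert x X)) c T = bdR (RX R X) c T := by
        intro n c hc T
        unfold bdR
        refine sum_congr rfl fun v hv => ?_
        congr 1
        by_cases h0 : c (insert v T) = 0
        · rw [h0, map_zero, map_zero]
        · have hvL : v ∈ L τ := (hc _ h0).1 (mem_insert_self _ _)
          have hvx : v ≠ x := fun h => hx (h ▸ hvL)
          by_cases hvX : v ∈ X
          · rw [RX_mem hvX, RX_mem (mem_insert_of_mem hvX)]
          · rw [RX_not hvX, RX_not (by rw [mem_insert, not_or]; exact ⟨hvx, hvX⟩)]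
      obtain ⟨w, hw, hbw⟩ := ih τ hτ z hz (fun T => by rw [← hagree k z hz T]; exact hbz T)
      exact ⟨w, hw, fun T => by rw [hagree _ w hw T]; exact hbw T⟩

end

end Pool.Agent.H77N.ALG
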