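import Pool.Agent.H77N.Stm
import Pool.Agent.H77N.ALGa

/-!
# Project N of helper77: stub ALG (helper39)
-/

set_option autoImplicit false

namespace Pool.Agent.H77N.ALG

open Finset Pool.Agent.W326.DU Pool.Agent.H77RA

theorem t : Pool.Agent.H77N.ALG := by
  intro V _ _ G M _ R k hcomm hinj hex z hz hbz
  have hRX : RX R univ = R := by
    funext v
    unfold RX
    rw [if_pos (mem_univ v)]
  have h0 : Im R ((∅ : Finset V) : Set V) = ⊥ := by
    unfold Im
    simp
  have hlk : lk G (∅ : Finset V) = univ := by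
    ext v
    simp [mem_lk]
  obtain ⟨w, hw, hbw⟩ := core (G := G) (R := R) k (lk G) (fun τ v => mem_lk G) hcomm hinj hex univ ∅ (by simp) z
    (by rw [hlk]; exact hz) (fun T => by rw [hRX, hbz]; exact zero_mem _)
  refine ⟨w, by rw [← hlk]; exact hw, ?_⟩
  funext T
  have h1 := hbw T
  rw [hRX, h0, AddSubgroup.mem_bot, sub_eq_zero] at h1
  exact h1

end Pool.Agent.H77N.ALG
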