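import Pool.Agent.H77N.PEK
import Pool.Agent.H77GP.Main

/-!
# Assembly
-/

set_option autoImplicit false
set_option linter.unusedSectionVars false

noncomputable section

namespace Pool.Agent.H77N

open Finset Pool.Agent.W326.DU Pool.Agent.H77RA Pool.Agent.Q18.HC.BB Pool.Agent.Helper655.VN Pool.Agent.RK
open scoped Manifold ContDiff

section im

variable {V : Type} [Fintype V] {ad : V → V → Prop} {K R : Type} [Group K] [Ring R] (i : K →* RAAG ad) (c : K →* R)

theorem im_iff (S : Set V) (x : FM i c) : x ∈ Im (RF i c) S ↔ x ∈ IM i c (gen ad '' S) := by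
  constructor
  · intro h
    have hle : Im (RF i c) S ≤ (IM i c (gen ad '' S)).toAddSubgroup := by
      refine iSup_le fun v => iSup_le fun hv => ?_
      rintro _ ⟨f, rfl⟩
      exact Submodule.subset_span ⟨gen ad v, ⟨v, hv, rfl⟩, f, RF_apply i c v f⟩
    exact hle h
  · intro h
    refine Submodule.span_induction (p := fun x _ => x ∈ Im (RF i c) S) ?_ ?_ ?_ ?_ h
    · rintro _ ⟨_, ⟨v, hv, rfl⟩, f, rfl⟩
      rw [← RF_apply]
      exact Pool.Agent.W304.DU.range_mem_Im (RF i c) S v hv f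
    · exact zero_mem _
    · intro x y _ _ hx hy
      exact add_mem hx hy
    · intro r x _ hx
      obtain ⟨y, hy, rfl⟩ := Pool.Agent.W304.DU.mem_Im (RF i c) S x hx
      rw [smul_sum]
      refine sum_mem fun w _ => ?_
      have e : r • RF i c w (y w) = RF i c w (r • y w) := by
        rw [RF_apply, RF_apply, map_smul, smul_sub]
      rw [e]
      by_cases hw : w ∈ S
      · exact Pool.Agent.W304.DU.range_mem_Im (RF i c) S w hw _
      · rw [hy w hw, smul_zero, map_zero]
        exact zero_mem _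

theorem gen_comm' {a b : V} (h : ad a b) : gen ad a * gen ad b = gen ad b * gen ad a :=
  Pool.Agent.W304.DU.RG.gen_comm ad a b h

theorem RF_comm {a b : V} (h : ad a b) (x : FM i c) : RF i c a (RF i c b x) = RF i c b (RF i c a x) := by
  rw [RF_apply, RF_apply, RF_apply, RF_apply, map_sub, map_sub, rt_rt, rt_rt, gen_comm' h]
  abel

end im

section grp

variable {V : Type} [Fintype V] [LinearOrder V] (G : SimpleGraph V)

theorem para_insert {τ : Finset V} {u : V} (hu : u ∈ lk G τ) {t : RAAG G.Adj}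
    (ht : t ∈ para G (insert u (τ : Set V))) : ∃ (m : ℤ) (t' : RAAG G.Adj), t' ∈ para G (τ : Set V) ∧
      t = gen G.Adj u ^ m * t' := by
  have hcomm : ∀ t' ∈ para G (τ : Set V), Commute t' (gen G.Adj u) := by
    intro t' ht'
    have h : para G (τ : Set V) ≤ Subgroup.centralizer {gen G.Adj u} := by
      refine (Subgroup.closure_le _).mpr ?_
      rintro _ ⟨v, hv, rfl⟩
      rw [SetLike.mem_coe, Subgroup.mem_centralizer_iff]
      rintro _ rfl
      exact (gen_comm' ((mem_lk G).mp hu v hv)).symm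
    exact ((Subgroup.mem_centralizer_iff.mp (h ht')) _ rfl).symm
  let P : Subgroup (RAAG G.Adj) :=
    { carrier := {t | ∃ (m : ℤ) (t' : RAAG G.Adj), t' ∈ para G (τ : Set V) ∧ t = gen G.Adj u ^ m * t'}
      one_mem' := ⟨0, 1, Subgroup.one_mem _, by simp⟩
      mul_mem' := by
        rintro _ _ ⟨m, a, ha, rfl⟩ ⟨m', b, hb, rfl⟩
        refine ⟨m + m', a * b, Subgroup.mul_mem _ ha hb, ?_⟩
        rw [zpow_add, mul_assoc, mul_assoc, ← mul_assoc a, ((hcomm a ha).zpow_right m').eq, mul_assoc]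
      inv_mem' := by
        rintro _ ⟨m, a, ha, rfl⟩
        refine ⟨-m, a⁻¹, Subgroup.inv_mem _ ha, ?_⟩
        rw [mul_inv_rev, zpow_neg, ((hcomm a ha).zpow_right m).inv_inv.eq] }
  have h : para G (insert u (τ : Set V)) ≤ P := by
    refine (Subgroup.closure_le _).mpr ?_
    rintro _ ⟨v, hv, rfl⟩
    rcases hv with rfl | hv
    · exact ⟨1, 1, Subgroup.one_mem _, by simp⟩
    · exact ⟨0, gen G.Adj v, Subgroup.subset_closure ⟨v, hv, rfl⟩, by simp⟩
  exact h ht

end grp

/-- **Main theorem**, from the stubs. -/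
theorem main_of (hALG : ALG) (hLIN : LIN) (hMOD : MOD) (hSHA : SHA) (hRAG : RAG) (hTOR : TOR) (hGEO : GEO)
    {V : Type} [Fintype V] [LinearOrder V] (G : SimpleGraph V) (N : Subgroup (RAAG G.Adj)) (k : ℕ)
    (hC : ∀ (g : RAAG G.Adj) (τ : Finset V) (u : V), u ∉ τ → G.IsClique (insert u (τ : Set V)) →
      (∀ t ∈ para G (insert u (τ : Set V)), g * t * g⁻¹ ∈ N → t = 1) → QEx G (lk G τ) k)
    {E : Type} [NormedAddCommGroup E] [NormedSpace ℝ E]
    [FiniteDimensional ℝ E] {HH : Type} [TopologicalSpace HH] (I : ModelWithCorners ℝ E HH) {W : Type}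
    [TopologicalSpace W] [T2Space W] [ChartedSpace HH W] [ContractibleSpace W]
    [MulAction N W] [ContinuousConstSMul N W] [ProperlyDiscontinuousSMul N W]
    (hk : Module.finrank ℝ E < 2 * k) : N496.CV.HasL2Betti N k 0 := by
  classical
  obtain ⟨j, rfl⟩ : ∃ j, k = j + 1 := ⟨k - 1, by omega⟩
  obtain ⟨U, hU, ι, hι⟩ := Pool.Agent.RK.LocEx.loc_exists (vn_NG (G := N))
  suffices h0 : VN831.l2Betti N (j + 1) = 0 by
    rw [← h0]
    exact N496.CV.hasL2Betti N (j + 1)
  refine Pool.Agent.H77GP.l2_zero ι hι (j + 1) fun x hx hdx => ?_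
  set c : N →* U := (ι : NG N →* U).comp canL with hc
  refine PEK.t N U c j ?_ x hx hdx
  refine hSHA (RAAG G.Adj) N U N.subtype c N.subtype_injective (raagRes G) j ?_
  refine hRAG V G N U N.subtype c j ?_
  have hunit : ∀ n : N, ¬ IsOfFinOrder n → IsUnit (c n - 1) := by
    intro n hn
    have h1 : Nz ((canL n : NG N) - 1) := nz_canL (injective_pow_iff_not_isOfFinOrder.mpr hn)
    have h2 := hι.unit _ h1
    rw [map_sub, map_one] at h2
    exact h2
  intro z hz hbz
  refine hALG V G (FM N.subtype c) (RF N.subtype c) (j + 1) (fun a b h x => RF_comm _ _ h x) ?_ ?_ z hz hbz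
  · intro τ v hτ hv x hx
    rw [im_iff] at hx ⊢
    obtain ⟨h1, h2⟩ := hTOR V G τ hτ
    refine (hMOD (RAAG G.Adj) N U N.subtype c (gen G.Adj '' (τ : Set V)) N.subtype_injective hunit h1).1
      (gen G.Adj v) ?_ (h2 v hv) x hx
    rintro _ ⟨u, hu, rfl⟩
    exact gen_comm' ((mem_lk G).mp hv u hu)
  · intro τ hτ a ha haI
    by_cases hfree : ∀ g : RAAG G.Adj, ∃ n : N, n ≠ 1 ∧ ∃ t ∈ Subgroup.closure (gen G.Adj '' (τ : Set V)),
        N.subtype n = g * t * g⁻¹
    · have htop := (hMOD (RAAG G.Adj) N U N.subtype c (gen G.Adj '' (τ : Set V)) N.subtype_injective hunit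
        (hTOR V G τ hτ).1).2 hfree
      refine ⟨0, fun T hT => absurd rfl hT, fun T => ?_⟩
      rw [im_iff, htop]
      exact Submodule.mem_top
    · push Not at hfree
      obtain ⟨g, hg⟩ := hfree
      have hQ : QEx G (lk G τ) (j + 1) := by
        by_cases hmax : ∀ u ∈ lk G τ, ∃ (m : ℤ) (t : RAAG G.Adj), m ≠ 0 ∧ t ∈ para G (τ : Set V) ∧
            g * (gen G.Adj u ^ m * t) * g⁻¹ ∈ N
        · exact hGEO V G N g τ hτ hmax E HH I W j hk
        · push Not at hmax
          obtain ⟨u, hu, hmax⟩ := hmax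
          have hadj := (mem_lk G).mp hu
          refine hC g τ u (fun h => (hadj u h).ne rfl) (hτ.insert fun b hb _ => (hadj b hb).symm) ?_
          intro t ht htN
          obtain ⟨m, t', ht', rfl⟩ := para_insert G hu ht
          by_cases hm : m = 0
          · subst hm
            rw [zpow_zero, one_mul] at htN ⊢
            by_contra h1
            refine hg ⟨g * t' * g⁻¹, htN⟩ ?_ t' ht' rfl
            intro h2
            apply h1
            have h3 : g * t' * g⁻¹ = 1 := congrArg Subtype.val h2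
            rwa [mul_inv_eq_one, mul_eq_left] at h3
          · exact absurd htN (hmax m t' hm ht')
      obtain ⟨b, hb1, hb2⟩ := hLIN V G (lk G τ) (j + 1) U (FM N.subtype c) (ι.comp (Pool.Agent.H77GP.ratN N))
        (IM N.subtype c (gen G.Adj '' (τ : Set V))) hQ a ha (fun T => (im_iff _ _ _ _).mp (haI T))
      exact ⟨b, hb1, fun T => (im_iff _ _ _ _).mpr (hb2 T)⟩

end Pool.Agent.H77N
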