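import Pool.Agent.H77N.Stm

/-!
# GEO: exactness of links from the action on a contractible manifold (project N of helper77)
-/

set_option autoImplicit false
set_option linter.unusedSectionVars false

noncomputable section

namespace Pool.Agent.H77N.GEO

open Finset Pool.Agent.W326.DU Pool.Agent.W555.KS Pool.Agent.Y131.KS Pool.Agent.R782.Bal Pool.Agent.H77RA
open Pool.Agent.H77AR Pool.Agent.H77GP
open scoped Manifold ContDiff

section pairing

/-- the pairing vanishes above the middle dimension -/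
theorem pairing {V : Type} [Fintype V] [LinearOrder V] (Γ : SimpleGraph V) {N : Type} [Group N]
    (ρ : RAAG Γ.Adj →* N) (hsep : SepH Γ ρ)
    {E : Type} [NormedAddCommGroup E] [NormedSpace ℝ E]
    [FiniteDimensional ℝ E] {HH : Type} [TopologicalSpace HH] (I : ModelWithCorners ℝ E HH) {W : Type}
    [TopologicalSpace W] [T2Space W] [ChartedSpace HH W] [ContractibleSpace W]
    [MulAction N W] [ContinuousConstSMul N W] [ProperlyDiscontinuousSMul N W]
    {j : ℕ} (hk : Module.finrank ℝ E < 2 * (j + 1)) :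
    ∀ z φ : Finset V → ZMod 2, (∀ T, z T ≠ 0 → Cl Γ T ∧ T.card = j + 1) →
      (∀ S : Finset V, ∑ v ∈ Sᶜ, z (insert v S) = 0) →
      (∀ R : Finset V, Cl Γ R → R.card = j + 2 → ∑ v ∈ R, φ (R.erase v) = 0) →
      ∑ P ∈ powersetCard (j + 1) univ, φ P * z P = 0 := by
  obtain ⟨e⟩ : Nonempty (V × Bool ≃ Fin (Fintype.card (V × Bool))) := ⟨Fintype.equivFin _⟩
  obtain ⟨f1, hc, hne⟩ := exists_f1g (W := W) Γ ρ hsep e
  have hcx := clF_cx (OG Γ) e
  rw [dJoin_eq hcx] at hne
  have h0 : VK2 (clF (OG Γ) e) (Module.finrank ℝ E + 1) :=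
    vk2_of_locDir2 hcx f1 hc hne (fun C hC => locDir2_manifold I hC)
  have h1 : VK2 (clF (OG Γ) e) (2 * j + 2) := vk2_le hcx (by omega) h0
  exact fun z φ hz1 hz2 hφ => pairing_zero e j h1 hz1 hz2 hφ

end pairing

section sep

variable {V : Type} [Fintype V] [LinearOrder V] (G : SimpleGraph V)

theorem gen_comm_para {τ : Finset V} {u : V} (hu : u ∈ lk G τ) {t : RAAG G.Adj}
    (ht : t ∈ para G (τ : Set V)) : Commute (gen G.Adj u) t := by
  unfold para at ht
  induction ht using Subgroup.closure_induction with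
  | mem x hx =>
    obtain ⟨v, hv, rfl⟩ := hx
    exact (gen_comm G ((mem_lk G).mp hu v (mem_coe.mp hv))).symm
  | one => exact Commute.one_right _
  | mul x y _ _ hx hy => exact hx.mul_right hy
  | inv x _ hx => exact hx.inv_right

theorem para_comm {τ : Finset V} (hτ : G.IsClique (τ : Set V)) {s t : RAAG G.Adj}
    (hs : s ∈ para G (τ : Set V)) (ht : t ∈ para G (τ : Set V)) : Commute s t := by
  unfold para at hs ht
  induction hs using Subgroup.closure_induction with
  | mem x hx =>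
    obtain ⟨u, hu, rfl⟩ := hx
    induction ht using Subgroup.closure_induction with
    | mem y hy =>
      obtain ⟨v, hv, rfl⟩ := hy
      by_cases huv : u = v
      · rw [huv]
      · exact gen_comm G (hτ hu hv huv)
    | one => exact Commute.one_right _
    | mul x y _ _ hx hy => exact hx.mul_right hy
    | inv x _ hx => exact hx.inv_right
  | one => exact Commute.one_left _
  | mul x y _ _ hx hy => exact hx.mul_left hy
  | inv x _ hx => exact hx.inv_left

theorem chi_para {τ : Finset V} {v : V} (hv : v ∉ τ) {t : RAAG G.Adj} (ht : t ∈ para G (τ : Set V)) :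
    chi G v t = 1 := by
  unfold para at ht
  induction ht using Subgroup.closure_induction with
  | mem x hx =>
    obtain ⟨u, hu, rfl⟩ := hx
    rw [chi_gen, if_neg, ofAdd_zero]
    intro h
    exact hv (h ▸ mem_coe.mp hu)
  | one => exact map_one _
  | mul x y _ _ hx hy => rw [map_mul, hx, hy, one_mul]
  | inv x _ hx => rw [map_inv, hx, inv_one]

theorem lk_notMem {τ : Finset V} {v : V} (hv : v ∈ lk G τ) : v ∉ τ :=
  fun h => G.loopless.irrefl v ((mem_lk G).mp hv v h)

/-- the graph of the link -/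
abbrev LG (τ : Finset V) : SimpleGraph {u // u ∈ lk G τ} := G.comap Subtype.val

variable (N : Subgroup (RAAG G.Adj)) (g : RAAG G.Adj) (τ : Finset V)

/-- the homomorphism -/
def rho (hτ : G.IsClique (τ : Set V)) (m : {u // u ∈ lk G τ} → ℤ) (t : {u // u ∈ lk G τ} → RAAG G.Adj)
    (ht : ∀ u, t u ∈ para G (τ : Set V))
    (hN : ∀ u : {u // u ∈ lk G τ}, g * (gen G.Adj u.1 ^ m u * t u) * g⁻¹ ∈ N) : RAAG (LG G τ).Adj →* N :=
  PresentedGroup.toGroup (f := fun u => (⟨g * (gen G.Adj u.1 ^ m u * t u) * g⁻¹, hN u⟩ : N)) (by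
    rintro r ⟨a, b, h, rfl⟩
    have h' : G.Adj a.1 b.1 := h
    have hc : Commute (gen G.Adj a.1 ^ m a * t a) (gen G.Adj b.1 ^ m b * t b) := by
      have h1 : Commute (gen G.Adj a.1 ^ m a) (gen G.Adj b.1 ^ m b) := (gen_comm G h').zpow_zpow _ _
      have h2 : Commute (gen G.Adj a.1 ^ m a) (t b) := (gen_comm_para G a.2 (ht b)).zpow_left _
      have h3 : Commute (t a) (gen G.Adj b.1 ^ m b) := ((gen_comm_para G b.2 (ht a)).zpow_left _).symm
      have h4 : Commute (t a) (t b) := para_comm G hτ (ht a) (ht b)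
      exact (h1.mul_right h2).mul_left (h3.mul_right h4)
    have hc2 : Commute (g * (gen G.Adj a.1 ^ m a * t a) * g⁻¹) (g * (gen G.Adj b.1 ^ m b * t b) * g⁻¹) := by
      have h5 : g * ((gen G.Adj a.1 ^ m a * t a) * (gen G.Adj b.1 ^ m b * t b)) * g⁻¹ =
          g * ((gen G.Adj b.1 ^ m b * t b) * (gen G.Adj a.1 ^ m a * t a)) * g⁻¹ := by rw [hc.eq]
      change g * (gen G.Adj a.1 ^ m a * t a) * g⁻¹ * (g * (gen G.Adj b.1 ^ m b * t b) * g⁻¹) =
        g * (gen G.Adj b.1 ^ m b * t b) * g⁻¹ * (g * (gen G.Adj a.1 ^ m a * t a) * g⁻¹)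
      have h6 : ∀ x y : RAAG G.Adj, g * x * g⁻¹ * (g * y * g⁻¹) = g * (x * y) * g⁻¹ := by
        intro x y; group
      rw [h6, h6, h5]
    simp only [map_mul, map_inv, FreeGroup.lift_apply_of]
    rw [mul_inv_eq_one, mul_inv_eq_iff_eq_mul]
    exact Subtype.ext hc2.eq)

theorem rho_gen (hτ : G.IsClique (τ : Set V)) (m : {u // u ∈ lk G τ} → ℤ) (t : {u // u ∈ lk G τ} → RAAG G.Adj)
    (ht : ∀ u, t u ∈ para G (τ : Set V))
    (hN : ∀ u : {u // u ∈ lk G τ}, g * (gen G.Adj u.1 ^ m u * t u) * g⁻¹ ∈ N) (u : {u // u ∈ lk G τ}) :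
    rho G N g τ hτ m t ht hN (gen (LG G τ).Adj u) = ⟨g * (gen G.Adj u.1 ^ m u * t u) * g⁻¹, hN u⟩ := by
  unfold rho Pool.Agent.W326.DU.gen
  exact PresentedGroup.toGroup.of _

/-- the exponent of a vertex of the link on the image of `rho` -/
theorem chi_rho (hτ : G.IsClique (τ : Set V)) (m : {u // u ∈ lk G τ} → ℤ) (t : {u // u ∈ lk G τ} → RAAG G.Adj)
    (ht : ∀ u, t u ∈ para G (τ : Set V))
    (hN : ∀ u : {u // u ∈ lk G τ}, g * (gen G.Adj u.1 ^ m u * t u) * g⁻¹ ∈ N) (v : {u // u ∈ lk G τ})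
    (x : RAAG (LG G τ).Adj) :
    chi G v.1 (rho G N g τ hτ m t ht hN x : RAAG G.Adj) = chi (LG G τ) v x ^ m v := by
  have h1 : (chi G v.1).comp (N.subtype.comp (rho G N g τ hτ m t ht hN)) =
      (zpowGroupHom (m v)).comp (chi (LG G τ) v) := by
    apply PresentedGroup.ext
    intro u
    change chi G v.1 ((rho G N g τ hτ m t ht hN (gen (LG G τ).Adj u) : N) : RAAG G.Adj) =
      (chi (LG G τ) v (gen (LG G τ).Adj u)) ^ m v
    rw [rho_gen, chi_gen]
    simp only [map_mul, map_inv, map_zpow, chi_gen, chi_para G (lk_notMem G v.2) (ht u), mul_one]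
    rw [mul_comm (chi G v.1 g), mul_assoc, mul_inv_cancel, mul_one]
    by_cases huv : u = v
    · subst huv
      rw [if_pos rfl, if_pos rfl]
    · rw [if_neg huv, if_neg (fun h => huv (Subtype.ext h)), ofAdd_zero, one_zpow, one_zpow]
  exact DFunLike.congr_fun h1 x

theorem sepH_rho (hτ : G.IsClique (τ : Set V)) (m : {u // u ∈ lk G τ} → ℤ) (t : {u // u ∈ lk G τ} → RAAG G.Adj)
    (ht : ∀ u, t u ∈ para G (τ : Set V)) (hm : ∀ u, m u ≠ 0)
    (hN : ∀ u : {u // u ∈ lk G τ}, g * (gen G.Adj u.1 ^ m u * t u) * g⁻¹ ∈ N) :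
    SepH (LG G τ) (rho G N g τ hτ m t ht hN) := by
  classical
  intro T hT
  have hfin : ∀ v : {u // u ∈ lk G τ},
      Set.Finite ((fun x : N => (Multiplicative.toAdd (chi G v.1 (x : RAAG G.Adj)) : ℤ)) '' T) :=
    fun v => hT.image _
  have hbd : ∀ v : {u // u ∈ lk G τ}, ∃ C : ℕ, ∀ x ∈ T,
      |(Multiplicative.toAdd (chi G v.1 (x : RAAG G.Adj)) : ℤ)| ≤ C := by
    intro v
    refine ⟨(hfin v).toFinset.sup Int.natAbs, ?_⟩
    intro x hx
    have h2 : (Multiplicative.toAdd (chi G v.1 (x : RAAG G.Adj)) : ℤ).natAbs ≤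
        (hfin v).toFinset.sup Int.natAbs :=
      Finset.le_sup (f := Int.natAbs) ((hfin v).mem_toFinset.mpr ⟨x, hx, rfl⟩)
    rw [Int.abs_eq_natAbs]
    exact_mod_cast h2
  choose C hC using hbd
  refine ⟨univ.sup C, ?_⟩
  intro a a' _ _ hmem v
  have h3 := hC v _ hmem
  rw [chi_rho, map_mul, map_inv, chi_gL, chi_gL] at h3
  have h4 : (Multiplicative.toAdd (((Multiplicative.ofAdd (a v))⁻¹ * Multiplicative.ofAdd (a' v)) ^ m v) : ℤ) =
      m v * (a' v - a v) := by
    rw [toAdd_zpow, toAdd_mul, toAdd_inv, toAdd_ofAdd, toAdd_ofAdd, smul_eq_mul]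
    ring
  rw [h4, abs_mul] at h3
  have h5 : 1 ≤ |m v| := Int.one_le_abs (hm v)
  have h6 : |a' v - a v| ≤ |m v| * |a' v - a v| := by
    have h7 := abs_nonneg (a' v - a v)
    nlinarith
  have h8 : C v ≤ univ.sup C := Finset.le_sup (f := C) (mem_univ v)
  have h9 : ((C v : ℕ) : ℤ) ≤ ((univ.sup C : ℕ) : ℤ) := by exact_mod_cast h8
  linarith

end sep

section transfer

variable {V : Type} [Fintype V] [LinearOrder V] (G : SimpleGraph V) (S : Finset V)

/-- the inclusion of finite sets -/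
def em : {u // u ∈ S} ↪ V := Function.Embedding.subtype _

theorem em_apply (u : {u // u ∈ S}) : em S u = u.1 := rfl

/-- the restriction of a finite set -/
def res (T : Finset V) : Finset {u // u ∈ S} := T.subtype (fun u => u ∈ S)

theorem map_res {T : Finset V} (h : T ⊆ S) : (res S T).map (em S) = T := by
  ext u
  simp only [res, mem_map, mem_subtype]
  constructor
  · rintro ⟨a, ha, rfl⟩
    exact ha
  · intro hu
    exact ⟨⟨u, h hu⟩, hu, rfl⟩

theorem res_map (T : Finset {u // u ∈ S}) : res S (T.map (em S)) = T := by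
  ext u
  simp only [res, mem_map, mem_subtype]
  constructor
  · rintro ⟨a, ha, h⟩
    have : a = u := Subtype.ext h
    rwa [this] at ha
  · intro hu
    exact ⟨u, hu, rfl⟩

theorem map_subset (T : Finset {u // u ∈ S}) : T.map (em S) ⊆ S := by
  intro u hu
  obtain ⟨a, _, rfl⟩ := mem_map.mp hu
  exact a.2

theorem sgn_map (u : {u // u ∈ S}) (T : Finset {u // u ∈ S}) : sgn u.1 (T.map (em S)) = sgn u T := by
  unfold sgn
  have h1 : (T.map (em S)).filter (fun x => x < u.1) = (T.filter (fun x => x < u)).map (em S) := by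
    ext x
    simp only [mem_filter, mem_map]
    constructor
    · rintro ⟨⟨a, ha, rfl⟩, h⟩
      exact ⟨a, ⟨ha, h⟩, rfl⟩
    · rintro ⟨a, ⟨ha, h⟩, rfl⟩
      exact ⟨⟨a, ha, rfl⟩, h⟩
  rw [h1, card_map]

/-- the boundary of the restricted chain -/
theorem sb_map (a : Finset V → ℚ) (ha : ∀ T, a T ≠ 0 → T ⊆ S) (T : Finset {u // u ∈ S}) :
    sb (fun T' => a (T'.map (em S))) T = sb a (T.map (em S)) := by
  unfold sb bdR
  have h1 : ∑ v ∈ (T.map (em S))ᶜ, sgn v (T.map (em S)) • (AddMonoidHom.id ℚ) (a (insert v (T.map (em S)))) =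
      ∑ v ∈ Tᶜ.map (em S), sgn v (T.map (em S)) • (AddMonoidHom.id ℚ) (a (insert v (T.map (em S)))) := by
    symm
    apply sum_subset
    · intro v hv
      obtain ⟨u, hu, rfl⟩ := mem_map.mp hv
      rw [mem_compl] at hu ⊢
      intro h
      obtain ⟨w, hw, hwu⟩ := mem_map.mp h
      exact hu ((em S).injective hwu ▸ hw)
    · intro v hv1 hv2
      by_cases h0 : a (insert v (T.map (em S))) = 0
      · rw [h0, map_zero, smul_zero]
      · exfalso
        have hvS : v ∈ S := ha _ h0 (mem_insert_self _ _)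
        apply hv2
        refine mem_map.mpr ⟨⟨v, hvS⟩, ?_, rfl⟩
        rw [mem_compl]
        intro h
        exact (mem_compl.mp hv1) (mem_map.mpr ⟨⟨v, hvS⟩, h, rfl⟩)
  rw [h1, sum_map]
  refine sum_congr rfl fun u _ => ?_
  rw [em_apply, sgn_map]
  change sgn u T • (AddMonoidHom.id ℚ) (a ((insert u T).map (em S))) = _
  rw [map_insert, em_apply]

/-- transfer of exactness -/
theorem transfer (k : ℕ)
    (h : ∀ a : Finset {u // u ∈ S} → ℚ, Sup (G.comap Subtype.val : SimpleGraph {u // u ∈ S}) univ k a →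
      sb a = 0 → ∃ b, Sup (G.comap Subtype.val : SimpleGraph {u // u ∈ S}) univ (k + 1) b ∧ sb b = a) :
    QEx G S k := by
  intro a ha hb
  have haS : ∀ T, a T ≠ 0 → T ⊆ S := fun T hT => (ha T hT).1
  obtain ⟨b, hb1, hb2⟩ := h (fun T' => a (T'.map (em S))) (by
    intro T hT
    obtain ⟨_, h2, h3⟩ := ha _ hT
    refine ⟨subset_univ _, ?_, by rwa [card_map] at h3⟩
    intro u hu v hv huv
    exact h2 (mem_coe.mpr (mem_map_of_mem (em S) (mem_coe.mp hu)))
      (mem_coe.mpr (mem_map_of_mem (em S) (mem_coe.mp hv))) (fun h => huv (Subtype.ext h))) (by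
    funext T
    rw [sb_map S a haS, hb]
    rfl)
  classical
  set b' : Finset V → ℚ := fun T => if T ⊆ S then b (res S T) else 0 with hb'
  have hb'S : ∀ T, b' T ≠ 0 → T ⊆ S := by
    intro T hT
    by_contra hc
    exact hT (if_neg hc)
  have hbb : (fun T' => b' (T'.map (em S))) = b := by
    funext T
    simp only [hb', if_pos (map_subset S T), res_map]
  refine ⟨b', ?_, ?_⟩
  · intro T hT
    have hTS := hb'S T hT
    have h1 : b (res S T) ≠ 0 := by
      intro h0
      apply hT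
      simp only [hb', if_pos hTS, h0]
    obtain ⟨_, h2, h3⟩ := hb1 _ h1
    refine ⟨hTS, ?_, ?_⟩
    · intro u hu v hv huv
      have hu' : (⟨u, hTS (mem_coe.mp hu)⟩ : {u // u ∈ S}) ∈ res S T := mem_subtype.mpr (mem_coe.mp hu)
      have hv' : (⟨v, hTS (mem_coe.mp hv)⟩ : {u // u ∈ S}) ∈ res S T := mem_subtype.mpr (mem_coe.mp hv)
      exact h2 (mem_coe.mpr hu') (mem_coe.mpr hv') (fun h => huv (congrArg Subtype.val h))
    · rw [← map_res S hTS, card_map]
      exact h3
  · funext T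
    by_cases hTS : T ⊆ S
    · rw [← map_res S hTS, ← sb_map S b' hb'S, hbb, hb2]
    · have h1 : a T = 0 := by
        by_contra h0
        exact hTS (haS T h0)
      rw [h1]
      unfold sb bdR
      refine sum_eq_zero fun v _ => ?_
      have h2 : b' (insert v T) = 0 := by
        by_contra h0
        exact hTS ((subset_insert _ _).trans (hb'S _ h0))
      rw [h2, map_zero, smul_zero]

end transfer

theorem t : GEO := by
  intro V _ _ G N g τ hτ h E _ _ _ HH _ I W _ _ _ _ _ _ _ j hj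
  choose m t hm ht hN using fun u : {u // u ∈ lk G τ} => h u.1 u.2
  have hsep := sepH_rho G N g τ hτ m t ht hm hN
  apply transfer
  intro a ha hb
  exact clique_exact (LG G τ) j (pairing (LG G τ) _ hsep I (W := W) hj) (RingHom.id ℚ) a ha hb

end Pool.Agent.H77N.GEO
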