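import Pool.Agent.H77N.Defs

/-!
# The module of functions on the group, modulo the span of the differences (proof of the stub MOD)
-/

set_option autoImplicit false
set_option linter.unusedSectionVars false

noncomputable section

namespace Pool.Agent.H77N

open Finset

namespace MODc

open scoped Classical

section

variable {A K R : Type} [Group A] [Group K] [Ring R] (i : K →* A) (c : K →* R)

/-- the function with support `i(K) a` and value one at `a` -/
def ev (a x : A) : R := if h : ∃ n, x = i n * a then c (h.choose)⁻¹ else 0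

theorem ev_of (hi : Function.Injective i) (a : A) (n : K) : ev i c a (i n * a) = c n⁻¹ := by
  have h : ∃ m, i n * a = i m * a := ⟨n, rfl⟩
  have h1 : h.choose = n := hi (mul_right_cancel h.choose_spec).symm
  unfold ev
  rw [dif_pos h, h1]

theorem ev_not (a x : A) (h : ¬ ∃ n, x = i n * a) : ev i c a x = 0 := dif_neg h

variable (hi : Function.Injective i)

/-- the elements that span -/
def eF (r : R) (a : A) : FM i c := ⟨fun x => r * ev i c a x, by
  refine ⟨fun n x => ?_, {a}, fun x hx => ?_⟩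
  · by_cases h : ∃ m, x = i m * a
    · obtain ⟨m, rfl⟩ := h
      change r * ev i c a (i n * (i m * a)) = r * ev i c a (i m * a) * c n⁻¹
      rw [← mul_assoc (i n), ← map_mul, ev_of i c hi, ev_of i c hi, mul_inv_rev, map_mul, mul_assoc]
    · have h' : ¬ ∃ m, i n * x = i m * a := by
        rintro ⟨m, hm⟩
        exact h ⟨n⁻¹ * m, by rw [map_mul, mul_assoc, ← hm, map_inv, inv_mul_cancel_left]⟩
      change r * ev i c a (i n * x) = r * ev i c a x * c n⁻¹
      rw [ev_not i c a x h, ev_not i c a _ h', mul_zero, zero_mul]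
  · by_contra h
    refine hx ?_
    change r * ev i c a x = 0
    rw [ev_not i c a x, mul_zero]
    rintro ⟨n, hn⟩
    exact h ⟨a, mem_singleton_self a, n, hn⟩⟩

theorem eF_apply (r : R) (a x : A) : (eF i c hi r a).1 x = r * ev i c a x := rfl

theorem eF_add (r s : R) (a : A) : eF i c hi (r + s) a = eF i c hi r a + eF i c hi s a := by
  refine Subtype.ext (funext fun x => ?_)
  change (r + s) * ev i c a x = r * ev i c a x + s * ev i c a x
  rw [add_mul]

theorem eF_zero (a : A) : eF i c hi 0 a = 0 := by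
  refine Subtype.ext (funext fun x => ?_)
  change 0 * ev i c a x = 0
  rw [zero_mul]

theorem eF_sub (r s : R) (a : A) : eF i c hi (r - s) a = eF i c hi r a - eF i c hi s a := by
  refine Subtype.ext (funext fun x => ?_)
  change (r - s) * ev i c a x = r * ev i c a x - s * ev i c a x
  rw [sub_mul]

theorem eF_shift (r : R) (a : A) (n : K) : eF i c hi r (i n * a) = eF i c hi (r * c n) a := by
  refine Subtype.ext (funext fun x => ?_)
  rw [eF_apply, eF_apply]
  by_cases h : ∃ m, x = i m * a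
  · obtain ⟨m, rfl⟩ := h
    have h1 : i m * a = i (m * n⁻¹) * (i n * a) := by
      rw [map_mul, map_inv]
      group
    have h2 : ev i c (i n * a) (i m * a) = c n * c m⁻¹ := by
      rw [h1, ev_of i c hi, mul_inv_rev, inv_inv, map_mul]
    rw [h2, ev_of i c hi, mul_assoc]
  · have h' : ¬ ∃ m, x = i m * (i n * a) := by
      rintro ⟨m, hm⟩
      exact h ⟨m * n, by rw [map_mul, mul_assoc, ← hm]⟩
    rw [ev_not i c a x h, ev_not i c _ _ h', mul_zero, mul_zero]

theorem rt_eF (g : A) (r : R) (a : A) : rt i c g (eF i c hi r a) = eF i c hi r (a * g) := by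
  refine Subtype.ext (funext fun x => ?_)
  rw [rt_apply, eF_apply, eF_apply]
  by_cases h : ∃ m, x = i m * (a * g)
  · obtain ⟨m, rfl⟩ := h
    have h1 : i m * (a * g) * g⁻¹ = i m * a := by group
    rw [h1, ev_of i c hi, ev_of i c hi]
  · have h' : ¬ ∃ m, x * g⁻¹ = i m * a := by
      rintro ⟨m, hm⟩
      exact h ⟨m, by rw [← mul_assoc, ← hm, inv_mul_cancel_right]⟩
    rw [ev_not i c _ _ h, ev_not i c _ _ h']

/-- induction -/
theorem ind (P : FM i c → Prop) (h0 : P 0) (he : ∀ r a, P (eF i c hi r a)) (ha : ∀ f g, P f → P g → P (f + g))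
    (f : FM i c) : P f := by
  obtain ⟨h1, S, hS⟩ := f.2
  clear h1
  induction S using Finset.induction_on generalizing f with
  | empty =>
    have h : f = 0 := by
      refine Subtype.ext (funext fun x => ?_)
      by_contra h
      obtain ⟨s, hs, -⟩ := hS x h
      exact absurd hs (notMem_empty s)
    rw [h]
    exact h0
  | insert s S hs IH =>
    have h1 : f = eF i c hi (f.1 s) s + (f - eF i c hi (f.1 s) s) := by abel
    rw [h1]
    refine ha _ _ (he _ _) (IH _ fun x hx => ?_)
    by_cases h : ∃ m, x = i m * s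
    · exfalso
      obtain ⟨m, rfl⟩ := h
      refine hx ?_
      change f.1 (i m * s) - f.1 s * ev i c s (i m * s) = 0
      rw [ev_of i c hi, f.2.1, sub_self]
    · have h2 : f.1 x ≠ 0 := by
        intro h3
        refine hx ?_
        change f.1 x - f.1 s * ev i c s x = 0
        rw [ev_not i c s x h, h3, mul_zero, sub_zero]
      obtain ⟨s', hs', n, hn⟩ := hS x h2
      rcases Finset.mem_insert.1 hs' with rfl | h3
      · exact absurd ⟨n, hn⟩ h
      · exact ⟨s', h3, n, hn⟩

variable (T : Set A)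

theorem rt_sub_mem (t : A) (ht : t ∈ Subgroup.closure T) (f : FM i c) : rt i c t f - f ∈ IM i c T := by
  induction ht using Subgroup.closure_induction generalizing f with
  | mem x hx => exact Submodule.subset_span ⟨x, hx, f, rfl⟩
  | one =>
    rw [rt_one]
    simp
  | mul x y _ _ hx hy =>
    have h1 : rt i c (x * y) f - f = (rt i c y (rt i c x f) - rt i c x f) + (rt i c x f - f) := by
      rw [rt_rt]
      abel
    rw [h1]
    exact add_mem (hy _) (hx _)
  | inv x _ hx =>
    have h1 : rt i c x⁻¹ f - f = -(rt i c x (rt i c x⁻¹ f) - rt i c x⁻¹ f) := by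
      rw [rt_rt, inv_mul_cancel, rt_one]
      simp
    rw [h1]
    exact neg_mem (hx _)

/-- points without stabilizer -/
def Fr (g : A) : Prop := ∀ n : K, ∀ t ∈ Subgroup.closure T, i n = g * t * g⁻¹ → n = 1

theorem Fr.mul_left {g : A} (h : Fr i T g) (m : K) : Fr i T (i m * g) := by
  intro n t ht hn
  have h1 : i (m⁻¹ * n * m) = g * t * g⁻¹ := by
    rw [map_mul, map_mul, hn, map_inv]
    group
  have h2 := h _ t ht h1
  have h3 : n = m * (m⁻¹ * n * m) * m⁻¹ := by group
  rw [h3, h2]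
  group

theorem Fr.mul_right {g : A} (h : Fr i T g) {t : A} (ht : t ∈ Subgroup.closure T) : Fr i T (g * t) := by
  intro n u hu hn
  refine h n (t * u * t⁻¹) (mul_mem (mul_mem ht hu) (inv_mem ht)) ?_
  rw [hn]
  group

theorem comm_closure {v : A} (hv : ∀ u ∈ T, Commute u v) {t : A} (ht : t ∈ Subgroup.closure T) : Commute t v := by
  induction ht using Subgroup.closure_induction with
  | mem x hx => exact hv x hx
  | one => exact Commute.one_left v
  | mul x y _ _ hx hy => exact hx.mul_left hy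
  | inv x _ hx => exact hx.inv_left

theorem Fr.mul_comm {g : A} (h : Fr i T g) {v : A} (hv : ∀ u ∈ T, Commute u v) : Fr i T (g * v) := by
  intro n u hu hn
  refine h n u hu ?_
  have h1 : v * u * v⁻¹ = u := by
    rw [← (comm_closure T hv hu).eq, mul_inv_cancel_right]
  rw [hn, mul_inv_rev]
  calc g * v * u * (v⁻¹ * g⁻¹) = g * (v * u * v⁻¹) * g⁻¹ := by group
    _ = g * u * g⁻¹ := by rw [h1]

theorem fin_supp {g : A} (h : Fr i T g) (f : FM i c) :
    (Function.support fun t : Subgroup.closure T => f.1 (g * t)).Finite := by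
  obtain ⟨-, S, hS⟩ := f.2
  have h1 : ∀ t : Subgroup.closure T, ∃ s : A, ∃ n : K, f.1 (g * t) ≠ 0 → s ∈ S ∧ g * t = i n * s := by
    intro t
    by_cases h0 : f.1 (g * t) = 0
    · exact ⟨1, 1, fun h2 => absurd h0 h2⟩
    · obtain ⟨s, hs, n, hn⟩ := hS _ h0
      exact ⟨s, n, fun _ => ⟨hs, hn⟩⟩
  choose s n hsn using h1
  refine Set.Finite.of_injOn (f := s) (t := (S : Set A)) (fun t ht => (hsn t ht).1) ?_ S.finite_toSet
  intro t ht t' ht' h2
  have h3 := (hsn t ht).2
  have h4 := (hsn t' ht').2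
  rw [← h2] at h4
  have h5 : i (n t' * (n t)⁻¹) = g * (t' * (t : A)⁻¹) * g⁻¹ := by
    have h6 : (s t) = (i (n t))⁻¹ * (g * t) := by rw [h3, inv_mul_cancel_left]
    rw [h6] at h4
    rw [map_mul, map_inv]
    have h7 : (t' : A) = g⁻¹ * (i (n t') * ((i (n t))⁻¹ * (g * t))) := by rw [← h4, inv_mul_cancel_left]
    rw [h7]
    group
  have h6 := h _ _ (mul_mem t'.2 (inv_mem t.2)) h5
  rw [h6, map_one] at h5
  have h7 : (t' : A) * (t : A)⁻¹ = 1 := by
    have h8 : (t' : A) * (t : A)⁻¹ = g⁻¹ * (g * (t' * (t : A)⁻¹) * g⁻¹) * g := by group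
    rw [h8, ← h5]
    group
  exact Subtype.ext (mul_inv_eq_one.1 h7).symm

/-- summation over the coset -/
def Th {g : A} (h : Fr i T g) : FM i c →ₗ[R] R where
  toFun f := ∑ᶠ t : Subgroup.closure T, f.1 (g * t)
  map_add' f f' := finsum_add_distrib (fin_supp i c T h f) (fin_supp i c T h f')
  map_smul' r f := (mul_finsum' _ r (fin_supp i c T h f)).symm

theorem Th_apply {g : A} (h : Fr i T g) (f : FM i c) : Th i c T h f = ∑ᶠ t : Subgroup.closure T, f.1 (g * t) := rfl

theorem Th_mul_right {g : A} (h : Fr i T g) {u : A} (hu : u ∈ Subgroup.closure T) (h' : Fr i T (g * u)) (f : FM i c) :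
    Th i c T h' f = Th i c T h f := by
  rw [Th_apply, Th_apply]
  rw [← finsum_comp_equiv (Equiv.mulLeft (⟨u, hu⟩ : Subgroup.closure T)) (f := fun t => f.1 (g * t))]
  refine finsum_congr fun t => ?_
  change f.1 (g * u * t) = f.1 (g * (u * t))
  rw [mul_assoc]

theorem Th_rt {g : A} (h : Fr i T g) {u : A} (hu : u ∈ Subgroup.closure T) (f : FM i c) :
    Th i c T h (rt i c u f) = Th i c T h f := by
  rw [Th_apply, Th_apply]
  rw [← finsum_comp_equiv (Equiv.mulRight (⟨u, hu⟩ : Subgroup.closure T)⁻¹) (f := fun t => f.1 (g * t))]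
  refine finsum_congr fun t => ?_
  change f.1 (g * t * u⁻¹) = f.1 (g * (t * u⁻¹))
  rw [mul_assoc]

theorem Th_IM {g : A} (h : Fr i T g) {f : FM i c} (hf : f ∈ IM i c T) : Th i c T h f = 0 := by
  have h1 : IM i c T ≤ LinearMap.ker (Th i c T h) := by
    refine Submodule.span_le.2 ?_
    rintro _ ⟨u, hu, f, rfl⟩
    change Th i c T h (rt i c u f - f) = 0
    rw [map_sub, Th_rt i c T h (Subgroup.subset_closure hu), sub_self]
  exact h1 hf

theorem Th_mul_left {g : A} (h : Fr i T g) (n : K) (h' : Fr i T (i n * g)) (f : FM i c) :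
    Th i c T h' f = Th i c T h f * c n⁻¹ := by
  rw [Th_apply, Th_apply, finsum_mul' _ _ (fin_supp i c T h f)]
  refine finsum_congr fun t => ?_
  rw [mul_assoc, f.2.1]

theorem Th_comm {g : A} (h : Fr i T g) {v : A} (hv : ∀ u ∈ T, Commute u v) (h' : Fr i T (g * v⁻¹)) (f : FM i c) :
    Th i c T h (rt i c v f) = Th i c T h' f := by
  rw [Th_apply, Th_apply]
  refine finsum_congr fun t => ?_
  rw [rt_apply, mul_assoc, mul_assoc, ((comm_closure T hv t.2).inv_right).eq]

theorem conj_fin {g t : A} (h : IsOfFinOrder (g * t * g⁻¹)) : IsOfFinOrder t := by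
  have h1 := (MulAut.conj g⁻¹).toMonoidHom.isOfFinOrder h
  have h2 : (MulAut.conj g⁻¹).toMonoidHom (g * t * g⁻¹) = t := by
    change g⁻¹ * (g * t * g⁻¹) * g⁻¹⁻¹ = t
    group
  rwa [h2] at h1

theorem eF_mem (hU : ∀ n : K, ¬ IsOfFinOrder n → IsUnit (c n - 1))
    (hT : ∀ t ∈ Subgroup.closure T, t ≠ 1 → ¬ IsOfFinOrder t) (r : R) (g : A) (hg : ¬ Fr i T g) :
    eF i c hi r g ∈ IM i c T := by
  unfold Fr at hg
  push Not at hg
  obtain ⟨n, t, ht, hn, hn1⟩ := hg
  have ht1 : t ≠ 1 := by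
    rintro rfl
    refine hn1 (hi ?_)
    rw [hn, map_one]
    group
  have hno : ¬ IsOfFinOrder n := by
    intro h1
    have h2 : IsOfFinOrder (i n) := i.isOfFinOrder h1
    rw [hn] at h2
    exact hT t ht ht1 (conj_fin h2)
  obtain ⟨w, hw⟩ := hU n hno
  have h1 : ∀ s : R, eF i c hi (s * (c n - 1)) g ∈ IM i c T := by
    intro s
    have h2 : eF i c hi (s * (c n - 1)) g = rt i c t (eF i c hi s g) - eF i c hi s g := by
      rw [mul_sub, mul_one, eF_sub, ← eF_shift, rt_eF, hn]
      congr 2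
      group
    rw [h2]
    exact rt_sub_mem i c T t ht _
  have h2 := h1 (r * (w⁻¹ : Rˣ))
  rwa [← hw, mul_assoc, Units.inv_mul, mul_one] at h2

include hi in
theorem part2 (hU : ∀ n : K, ¬ IsOfFinOrder n → IsUnit (c n - 1))
    (hT : ∀ t ∈ Subgroup.closure T, t ≠ 1 → ¬ IsOfFinOrder t)
    (h : ∀ g : A, ∃ n : K, n ≠ 1 ∧ ∃ t ∈ Subgroup.closure T, i n = g * t * g⁻¹) : IM i c T = ⊤ := by
  rw [eq_top_iff]
  intro f _
  refine ind i c hi (fun f => f ∈ IM i c T) (zero_mem _) (fun r a => ?_) (fun f g hf hg => add_mem hf hg) f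
  refine eF_mem i c hi T hU hT r a fun h1 => ?_
  obtain ⟨n, hn, t, ht, hnt⟩ := h a
  exact hn (h1 n t ht hnt)

/-- the double coset relation -/
def dcr (a b : A) : Prop := ∃ n : K, ∃ t ∈ Subgroup.closure T, a = i n * b * t

theorem dcr_equiv : Equivalence (dcr i T) where
  refl a := ⟨1, 1, one_mem _, by rw [map_one]; group⟩
  symm := by
    rintro a b ⟨n, t, ht, rfl⟩
    exact ⟨n⁻¹, t⁻¹, inv_mem ht, by rw [map_inv]; group⟩
  trans := by
    rintro a b d ⟨n, t, ht, rfl⟩ ⟨m, s, hs, rfl⟩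
    exact ⟨n * m, s * t, mul_mem hs ht, by rw [map_mul]; group⟩

/-- the setoid -/
def dcs : Setoid A := ⟨dcr i T, dcr_equiv i T⟩

/-- a representative -/
def rep (a : A) : A := (Quotient.mk (dcs i T) a).out

theorem rep_rel (a : A) : dcr i T a (rep i T a) := by
  have h : (dcs i T) (rep i T a) a := Quotient.exact (Quotient.out_eq (Quotient.mk (dcs i T) a))
  exact (dcr_equiv i T).symm h

theorem rep_eq {a b : A} (h : dcr i T a b) : rep i T a = rep i T b := by
  unfold rep
  have h1 : Quotient.mk (dcs i T) a = Quotient.mk (dcs i T) b := Quotient.sound h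
  rw [h1]

include hi in
/-- reduction to representatives -/
theorem red (f : FM i c) : ∃ ρ : A →₀ R, (∀ d ∈ ρ.support, rep i T d = d) ∧
    f - ρ.sum (fun d r => eF i c hi r d) ∈ IM i c T := by
  refine ind i c hi (fun f => ∃ ρ : A →₀ R, (∀ d ∈ ρ.support, rep i T d = d) ∧
    f - ρ.sum (fun d r => eF i c hi r d) ∈ IM i c T) ⟨0, by simp, by simp⟩ (fun r a => ?_) (fun f g hf hg => ?_) f
  · obtain ⟨n, t, ht, hn⟩ := rep_rel i T a
    refine ⟨Finsupp.single (rep i T a) (r * c n), fun d hd => ?_, ?_⟩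
    · have h1 : d = rep i T a := by
        have := Finsupp.support_single_subset hd
        rwa [Finset.mem_singleton] at this
      rw [h1]
      exact (rep_eq i T (rep_rel i T a)).symm
    · rw [Finsupp.sum_single_index (h := fun d r => eF i c hi r d) (eF_zero i c hi _), ← eF_shift]
      have h1 : eF i c hi r a = rt i c t (eF i c hi r (i n * rep i T a)) := by
        rw [rt_eF, ← hn]
      rw [h1]
      exact rt_sub_mem i c T t ht _
  · obtain ⟨ρ, h1, h2⟩ := hf
    obtain ⟨σ, h3, h4⟩ := hg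
    refine ⟨ρ + σ, fun d hd => ?_, ?_⟩
    · rcases Finset.mem_union.1 (Finsupp.support_add hd) with h5 | h5
      · exact h1 d h5
      · exact h3 d h5
    · rw [Finsupp.sum_add_index' (fun d => eF_zero i c hi d) (fun d r s => eF_add i c hi r s d)]
      have h5 : f + g - (ρ.sum (fun d r => eF i c hi r d) + σ.sum (fun d r => eF i c hi r d)) =
        (f - ρ.sum (fun d r => eF i c hi r d)) + (g - σ.sum (fun d r => eF i c hi r d)) := by abel
      rw [h5]
      exact add_mem h2 h4

theorem Th_self {g : A} (h : Fr i T g) (r : R) : Th i c T h (eF i c hi r g) = r := by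
  rw [Th_apply, finsum_eq_single _ (1 : Subgroup.closure T)]
  · rw [eF_apply]
    have h1 : g * ((1 : Subgroup.closure T) : A) = i 1 * g := by
      rw [map_one]
      simp
    rw [h1, ev_of i c hi, inv_one, map_one, mul_one]
  · intro t ht
    rw [eF_apply, ev_not, mul_zero]
    rintro ⟨n, hn⟩
    have h1 : i n = g * t * g⁻¹ := by rw [hn, mul_inv_cancel_right]
    have h2 := h n t t.2 h1
    rw [h2, map_one] at h1
    refine ht (Subtype.ext ?_)
    change (t : A) = 1
    have h3 : (t : A) = g⁻¹ * (g * t * g⁻¹) * g := by group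
    rw [h3, ← h1]
    group

theorem Th_other {g d : A} (h : Fr i T g) (r : R) (hd : ¬ dcr i T g d) : Th i c T h (eF i c hi r d) = 0 := by
  rw [Th_apply]
  refine finsum_eq_zero_of_forall_eq_zero fun t => ?_
  rw [eF_apply, ev_not, mul_zero]
  rintro ⟨n, hn⟩
  refine hd ⟨n, (t : A)⁻¹, inv_mem t.2, ?_⟩
  rw [← hn, mul_inv_cancel_right]

include hi in
/-- elements with vanishing sums -/
theorem mem_of_Th (hU : ∀ n : K, ¬ IsOfFinOrder n → IsUnit (c n - 1))
    (hT : ∀ t ∈ Subgroup.closure T, t ≠ 1 → ¬ IsOfFinOrder t) (f : FM i c)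
    (hf : ∀ (g : A) (h : Fr i T g), Th i c T h f = 0) : f ∈ IM i c T := by
  obtain ⟨ρ, h1, h2⟩ := red i c hi T f
  have h3 : ρ.sum (fun d r => eF i c hi r d) ∈ IM i c T := by
    refine Submodule.sum_mem _ fun d hd => ?_
    by_cases hF : Fr i T d
    · have h4 : Th i c T hF (f - ρ.sum (fun d r => eF i c hi r d)) = 0 := Th_IM i c T hF h2
      rw [map_sub, hf d hF, zero_sub, neg_eq_zero, Finsupp.sum, map_sum, Finset.sum_eq_single d] at h4
      · rw [Th_self] at h4
        change eF i c hi (ρ d) d ∈ IM i c T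
        rw [h4, eF_zero]
        exact zero_mem _
      · intro b hb hbd
        refine Th_other i c hi T hF _ fun h5 => hbd ?_
        rw [← h1 b hb, ← h1 d hd]
        exact (rep_eq i T h5).symm
      · intro h5
        exact absurd hd h5
    · exact eF_mem i c hi T hU hT _ d hF
  have h4 := add_mem h2 h3
  rwa [sub_add_cancel] at h4

include hi in
theorem part1 (hU : ∀ n : K, ¬ IsOfFinOrder n → IsUnit (c n - 1))
    (hT : ∀ t ∈ Subgroup.closure T, t ≠ 1 → ¬ IsOfFinOrder t) (v : A) (hv : ∀ u ∈ T, Commute u v)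
    (hvm : ∀ (m : ℤ) (t : A), m ≠ 0 → t ∈ Subgroup.closure T → ¬ IsOfFinOrder (v ^ m * t)) (f : FM i c)
    (hf : rt i c v f - f ∈ IM i c T) : f ∈ IM i c T := by
  refine mem_of_Th i c hi T hU hT f fun g h => ?_
  have hv' : ∀ u ∈ T, Commute u v⁻¹ := fun u hu => (hv u hu).inv_right
  have hFm : ∀ m : ℕ, Fr i T (g * v⁻¹ ^ m) := by
    intro m
    induction m with
    | zero => rwa [pow_zero, mul_one]
    | succ m ih =>
      rw [pow_succ, ← mul_assoc]
      exact ih.mul_comm i T hv'
  have hTm : ∀ m : ℕ, Th i c T (hFm m) f = Th i c T h f := by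
    intro m
    induction m with
    | zero =>
      rw [Th_apply, Th_apply, pow_zero, mul_one]
    | succ m ih =>
      rw [← ih]
      have h1 := Th_IM i c T (hFm m) hf
      have h2 : Fr i T (g * v⁻¹ ^ m * v⁻¹) := (hFm m).mul_comm i T hv'
      rw [map_sub, sub_eq_zero, Th_comm i c T (hFm m) hv h2] at h1
      rw [← h1, Th_apply, Th_apply, pow_succ, ← mul_assoc]
  by_contra hne
  have h1 : ∀ m : ℕ, ∃ t : Subgroup.closure T, f.1 (g * v⁻¹ ^ m * t) ≠ 0 := by
    intro m
    by_contra h2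
    push Not at h2
    refine hne ?_
    rw [← hTm m, Th_apply]
    exact finsum_eq_zero_of_forall_eq_zero h2
  choose t ht using h1
  obtain ⟨-, S, hS⟩ := f.2
  have h2 : ∀ m : ℕ, ∃ s ∈ S, ∃ n, g * v⁻¹ ^ m * t m = i n * s := fun m => hS _ (ht m)
  choose s hs n hn using h2
  obtain ⟨m, m', hmm, hss⟩ : ∃ m m' : ℕ, m < m' ∧ s m = s m' := by
    have h3 : ∃ a b : ℕ, a ≠ b ∧ (fun m => (⟨s m, hs m⟩ : S)) a = (fun m => (⟨s m, hs m⟩ : S)) b :=
      Finite.exists_ne_map_eq_of_infinite _
    obtain ⟨a, b, hab, h4⟩ := h3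
    have h5 : s a = s b := congrArg Subtype.val h4
    rcases lt_or_gt_of_ne hab with h6 | h6
    · exact ⟨a, b, h6, h5⟩
    · exact ⟨b, a, h6, h5.symm⟩
  -- the element of the kernel
  have e1 := hn m
  have e2 := hn m'
  rw [← hss] at e2
  have hk : i (n m' * (n m)⁻¹) * g = g * (v⁻¹ ^ m' * (t m' * (t m : A)⁻¹) * v ^ m) := by
    have e3 : s m = (i (n m))⁻¹ * (g * v⁻¹ ^ m * t m) := by rw [e1, inv_mul_cancel_left]
    rw [e3] at e2
    have e4 : i (n m') = g * v⁻¹ ^ m' * t m' * ((i (n m))⁻¹ * (g * v⁻¹ ^ m * t m))⁻¹ := by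
      rw [e2, mul_inv_cancel_right]
    rw [map_mul, map_inv, e4]
    simp only [inv_pow]
    group
  set q : K := n m' * (n m)⁻¹ with hq
  set u : A := t m' * (t m : A)⁻¹ with hu
  have hu' : u ∈ Subgroup.closure T := mul_mem (t m').2 (inv_mem (t m).2)
  have hcu : Commute u v := comm_closure T hv hu'
  have e5 : v⁻¹ ^ m' * u * v ^ m = v ^ ((m : ℤ) - m') * u := by
    rw [mul_assoc, (hcu.pow_right m).eq, ← mul_assoc]
    congr 1
    rw [zpow_sub, zpow_natCast, zpow_natCast, inv_pow]
    exact ((Commute.refl v).pow_pow m m').inv_right.eq.symm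
  rw [e5] at hk
  have hm0 : (m : ℤ) - m' ≠ 0 := by omega
  have hno : ¬ IsOfFinOrder q := by
    intro h3
    have h4 : IsOfFinOrder (i q) := i.isOfFinOrder h3
    have h5 : i q = g * (v ^ ((m : ℤ) - m') * u) * g⁻¹ := by rw [← hk, mul_inv_cancel_right]
    rw [h5] at h4
    exact hvm _ u hm0 hu' (conj_fin h4)
  obtain ⟨w, hw⟩ := hU q hno
  -- compare the sums
  have h6 : Fr i T (i q * g) := h.mul_left i T q
  have h7 : Th i c T h6 f = Th i c T h f := by
    have h8 : i q * g = g * v⁻¹ ^ (m' - m) * u := by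
      rw [hk, mul_assoc]
      congr 2
      have h9 : (m : ℤ) - m' = -((m' - m : ℕ) : ℤ) := by omega
      rw [h9, zpow_neg, zpow_natCast, inv_pow]
    have h9 : Fr i T (g * v⁻¹ ^ (m' - m) * u) := (hFm _).mul_right i T hu'
    calc Th i c T h6 f = Th i c T h9 f := by rw [Th_apply, Th_apply, h8]
      _ = Th i c T (hFm (m' - m)) f := Th_mul_right i c T (hFm _) hu' h9 f
      _ = Th i c T h f := hTm _
  rw [Th_mul_left i c T h q h6] at h7
  refine hne ?_
  have h8 : Th i c T h f * (c q - 1) = 0 := by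
    have h9 : Th i c T h f * c q⁻¹ * c q = Th i c T h f * c q := by rw [h7]
    rw [mul_assoc, ← map_mul, inv_mul_cancel, map_one, mul_one] at h9
    rw [mul_sub, mul_one, ← h9, sub_self]
  have h9 : Th i c T h f * (c q - 1) * (w⁻¹ : Rˣ) = 0 := by rw [h8, zero_mul]
  rwa [← hw, mul_assoc, Units.mul_inv, mul_one] at h9

end

theorem main : ∀ (A K R : Type) [Group A] [Group K] [Ring R] (i : K →* A) (c : K →* R) (T : Set A),
    Function.Injective i → (∀ n : K, ¬ IsOfFinOrder n → IsUnit (c n - 1)) →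
    (∀ t ∈ Subgroup.closure T, t ≠ 1 → ¬ IsOfFinOrder t) →
    (∀ v : A, (∀ u ∈ T, Commute u v) → (∀ (m : ℤ) (t : A), m ≠ 0 → t ∈ Subgroup.closure T →
        ¬ IsOfFinOrder (v ^ m * t)) →
      ∀ f : FM i c, rt i c v f - f ∈ IM i c T → f ∈ IM i c T) ∧
    ((∀ g : A, ∃ n : K, n ≠ 1 ∧ ∃ t ∈ Subgroup.closure T, i n = g * t * g⁻¹) → IM i c T = ⊤) := by
  intro A K R _ _ _ i c T hi hU hT
  exact ⟨fun v hv hvm f hf => part1 i c hi T hU hT v hv hvm f hf, fun h => part2 i c hi T hU hT h⟩

end MODc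

end Pool.Agent.H77N
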