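import Pool.Agent.H77N.Stm
import Pool.Agent.H77N.MODc

/-!
# The stub MOD
-/

set_option autoImplicit false

namespace Pool.Agent.H77N

theorem MOD.t : Pool.Agent.H77N.MOD := MODc.main

end Pool.Agent.H77N
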