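import Pool.Agent.H77N.Stm

set_option autoImplicit false
set_option linter.unusedSectionVars false

attribute [local instance] VN831.bcFunctor_additive VN831.viaAdd VN831.viaMod V7N.bcF_additive Pool.Agent.H77GP.bnAdd Pool.Agent.H77GP.bnMod

noncomputable section

namespace Pool.Agent.H77N.PEK

open CategoryTheory Pool.Agent.H77GP

theorem aux {K Q R : Type} [Group K] [Group Q] [Ring R] (i : K →* Q) (c : Q →* R) (hi : Function.Injective i) (n : ℕ)
    (h : Subsingleton (((V7N.bcF (c.comp i)).leftDerived (n + 1)).obj (V7N.trivG K)))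
    (x : XM Q R) (hx : x ∈ dg Q R (n + 2)) (hdx : dd x ∈ Jt c i.range) :
    ∃ y ∈ dg Q R (n + 3), x - dd y ∈ Jt c i.range := by
  have key : ∃ z, V7N.bcM (c.comp i) (bD i (n + 1)) z = Psi i c (n + 1) x := by
    obtain ⟨e⟩ := homR_succ i c hi n
    have hs := e.symm.toEquiv.subsingleton
    have h0 : Psi i c (n + 1) x ∈ LinearMap.ker (V7N.bcM (c.comp i) (bD i n)) := by
      rw [LinearMap.mem_ker, ← Psi_dd i c n hx]
      exact Psi_Jt i c n hdx
    have h1 : (Submodule.Quotient.mk ⟨Psi i c (n + 1) x, h0⟩ :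
        (LinearMap.ker (V7N.bcM (c.comp i) (bD i n)) ⧸
      (LinearMap.range (V7N.bcM (c.comp i) (bD i (n + 1)))).submoduleOf
        (LinearMap.ker (V7N.bcM (c.comp i) (bD i n))))) = 0 := Subsingleton.elim _ _
    exact (Submodule.Quotient.mk_eq_zero _).mp h1
  obtain ⟨z, hz⟩ := key
  obtain ⟨y, hy, rfl⟩ := Psi_surj i c (n + 2) z
  refine ⟨y, hy, ?_⟩
  refine mem_Jt_of_Psi i c (n + 1) (Submodule.sub_mem _ hx (dd_dg hy)) ?_
  rw [map_sub, Psi_dd i c (n + 1) hy, hz, sub_self]

theorem t : Pool.Agent.H77N.PEK := by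
  intro K R _ _ c k h x hx hdx
  have hr : (MonoidHom.id K).range = ⊤ := MonoidHom.range_eq_top.mpr Function.surjective_id
  have h1 := aux (MonoidHom.id K) c Function.injective_id k h x hx (by rw [hr]; exact hdx)
  rw [hr] at h1
  exact h1

end Pool.Agent.H77N.PEK
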