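import Pool.Agent.H77N.Stm

/-!
# RAG: the matrices of the free resolution of a right-angled Artin group
-/

set_option autoImplicit false
set_option linter.unusedSectionVars false

noncomputable section

namespace Pool.Agent.H77N.RAG

open Finset Pool.Agent.W326.DU Pool.Agent.H77RA Pool.Agent.Q18.HC.BB Pool.Agent.H77N

variable {V : Type} [Fintype V] [LinearOrder V] (G : SimpleGraph V) {K R : Type} [Group K] [Ring R]
  (i : K →* RAAG G.Adj) (c : K →* R)

theorem ra_gen (v : V) (w : FM i c) :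
    ra i c (MonoidAlgebra.of ℤ (RAAG G.Adj) (gen G.Adj v) - 1) w = RF i c v w := by
  rw [map_sub, AddMonoidHom.sub_apply, ra_of, RF_apply]
  have h : (1 : MonoidAlgebra ℤ (RAAG G.Adj)) = MonoidAlgebra.of ℤ (RAAG G.Adj) 1 := (map_one _).symm
  rw [h, ra_of, rt_one]
  rfl

theorem mv_dMat (n : ℕ) (w : Fin (Fintype.card (XC G (n + 1))) → FM i c) :
    mv i c w (dMat G (fun v => MonoidAlgebra.of ℤ (RAAG G.Adj) (gen G.Adj v) - 1) n) =
      frC G n (bdR (RF i c) (toC G (n + 1) w)) := by
  classical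
  funext j
  unfold frC
  set τ := (ee G n).symm j with hτ
  set f : V → MonoidAlgebra ℤ (RAAG G.Adj) := fun v => MonoidAlgebra.of ℤ (RAAG G.Adj) (gen G.Adj v) - 1 with hf
  have h1 : mv i c w (dMat G f n) j = ∑ σ : XC G (n + 1), ra i c (inc G f σ τ) (w (ee G (n + 1) σ)) := by
    unfold mv
    rw [← Equiv.sum_comp (ee G (n + 1))]
    refine sum_congr rfl fun σ _ => ?_
    change ra i c (inc G f ((ee G (n + 1)).symm (ee G (n + 1) σ)) _) _ = _
    rw [Equiv.symm_apply_apply]
  rw [h1]
  unfold inc bdR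
  have h2 : ∀ σ : XC G (n + 1), ra i c
      (∑ v, if v ∉ τ.1 ∧ insert v τ.1 = σ.1 then sgn v τ.1 • f v else 0) (w (ee G (n + 1) σ)) =
      ∑ v, if v ∉ τ.1 ∧ insert v τ.1 = σ.1 then
        sgn v τ.1 • RF i c v (toC G (n + 1) w (insert v τ.1)) else 0 := by
    intro σ
    rw [map_sum, AddMonoidHom.finsetSum_apply]
    refine sum_congr rfl fun v _ => ?_
    split_ifs with h
    · have h3 : toC G (n + 1) w (insert v τ.1) = w (ee G (n + 1) σ) := by
        unfold toC
        have h4 : G.IsClique ((insert v τ.1 : Finset V) : Set V) ∧ (insert v τ.1).card = n + 1 := by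
          rw [h.2]; exact σ.2
        rw [dif_pos h4]
        congr 2
        exact Subtype.ext h.2
      rw [h3, map_zsmul, AddMonoidHom.smul_apply, hf, ra_gen]
    · rw [map_zero]
      rfl
  rw [sum_congr rfl fun σ _ => h2 σ, sum_comm]
  have h3 : ∀ v, (∑ σ : XC G (n + 1), if v ∉ τ.1 ∧ insert v τ.1 = σ.1 then
      sgn v τ.1 • RF i c v (toC G (n + 1) w (insert v τ.1)) else 0) =
      if v ∉ τ.1 then sgn v τ.1 • RF i c v (toC G (n + 1) w (insert v τ.1)) else 0 := by
    intro v
    by_cases hv : v ∉ τ.1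
    · rw [if_pos hv]
      by_cases hc : G.IsClique ((insert v τ.1 : Finset V) : Set V)
      · have hcard : (insert v τ.1).card = n + 1 := by
          rw [card_insert_of_notMem hv, τ.2.2]
        rw [sum_eq_single ⟨insert v τ.1, hc, hcard⟩]
        · rw [if_pos ⟨hv, rfl⟩]
        · intro σ _ hσ
          rw [if_neg]
          rintro ⟨_, h⟩
          exact hσ (Subtype.ext h.symm)
        · intro h; exact absurd (mem_univ _) h
      · have h4 : toC G (n + 1) w (insert v τ.1) = 0 := by
          unfold toC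
          rw [dif_neg (fun h => hc h.1)]
        rw [h4, map_zero, smul_zero]
        refine sum_eq_zero fun σ _ => ?_
        split_ifs <;> rfl
    · rw [if_neg hv]
      refine sum_eq_zero fun σ _ => ?_
      rw [if_neg (fun h => hv h.1)]
  rw [sum_congr rfl fun v _ => h3 v, ← sum_filter]
  have h4 : univ.filter (fun v => v ∉ τ.1) = τ.1ᶜ := by ext; simp
  rw [h4]

theorem mv_raagRes (n : ℕ) (w : Fin ((raagRes G).r (n + 1)) → FM i c) :
    mv i c w ((raagRes G).d n) = frC G n (bdR (RF i c) (toC G (n + 1) w)) :=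
  mv_dMat G i c n w

theorem t : Pool.Agent.H77N.RAG := by
  intro V _ _ G K R _ _ i c k hex y hy
  rw [mv_raagRes] at hy
  have h1 : bdR (RF i c) (toC G (k + 1) y) = 0 := by
    refine frC_inj G (bdR_sup G (toC_sup G (k + 1) y)) (fun T hT => absurd rfl hT) ?_
    rw [hy]
    rfl
  obtain ⟨w, hw, hbw⟩ := hex _ (toC_sup G (k + 1) y) h1
  refine ⟨frC G (k + 2) w, ?_⟩
  rw [mv_raagRes, toC_frC G (k + 2) hw, hbw]
  exact frC_toC G (k + 1) y

end Pool.Agent.H77N.RAG
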