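import Pool.Agent.H77N.Stm

/-!
# Shapiro's lemma: `Tor` over `ℤ[K]` from a resolution over `ℤ[A]`
-/

set_option autoImplicit false
set_option linter.unusedSectionVars false

noncomputable section

attribute [local instance] VN831.bcFunctor_additive VN831.viaAdd VN831.viaMod V7N.bcF_additive
  V7N.rmAdd V7N.rmMod

namespace Pool.Agent.H77N.SHA

open Pool.Agent.H77N

open CategoryTheory

open scoped TensorProduct

section alg

variable {A K R : Type} [Group A] [Group K] [Ring R] (i : K →* A) (c : K →* R)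

theorem ra_smul (x : MonoidAlgebra ℤ A) (r : R) (f : FM i c) : ra i c x (r • f) = r • ra i c x f := by
  induction x using MonoidAlgebra.induction_linear with
  | zero =>
    rw [map_zero]
    exact (smul_zero r).symm
  | add x y hx hy =>
    rw [map_add, AddMonoidHom.add_apply, AddMonoidHom.add_apply, hx, hy, smul_add]
  | single g m =>
    rw [ra_single, ra_single, map_smul, smul_comm]

theorem ra_mul (x y : MonoidAlgebra ℤ A) (f : FM i c) : ra i c (x * y) f = ra i c y (ra i c x f) := by
  induction y using MonoidAlgebra.induction_linear with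
  | zero =>
    rw [mul_zero, map_zero]
    rfl
  | add y z hy hz =>
    rw [mul_add, map_add, map_add, AddMonoidHom.add_apply, AddMonoidHom.add_apply, hy, hz]
  | single h m =>
    induction x using MonoidAlgebra.induction_linear with
    | zero =>
      rw [zero_mul, map_zero]
      exact (map_zero _).symm
    | add x z hx hz =>
      rw [add_mul, map_add, map_add, AddMonoidHom.add_apply, AddMonoidHom.add_apply, hx, hz, map_add]
    | single g n =>
      rw [MonoidAlgebra.single_mul_single, ra_single, ra_single, ra_single, map_zsmul, rt_rt, smul_smul, mul_comm n m]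

open Classical in
/-- the function with support `i(K)` and value `1` at `1` -/
def dlt (hi : Function.Injective i) : FM i c :=
  ⟨fun a => if h : ∃ n, a = i n then c h.choose⁻¹ else 0, by
    constructor
    · intro n a
      by_cases h : ∃ m, a = i m
      · have h' : ∃ m, i n * a = i m := by
          obtain ⟨m, hm⟩ := h
          exact ⟨n * m, by rw [hm, map_mul]⟩
        simp only [dif_pos h, dif_pos h']
        have e1 := h.choose_spec
        have e2 := h'.choose_spec
        have e3 : h'.choose = n * h.choose := hi (by rw [← e2, map_mul, ← e1])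
        rw [e3, mul_inv_rev, map_mul]
      · have h' : ¬ ∃ m, i n * a = i m := by
          rintro ⟨m, hm⟩
          exact h ⟨n⁻¹ * m, by rw [map_mul, ← hm, map_inv, inv_mul_cancel_left]⟩
        simp only [dif_neg h, dif_neg h', zero_mul]
    · refine ⟨{1}, fun a h => ⟨1, Finset.mem_singleton_self _, ?_⟩⟩
      by_cases h' : ∃ m, a = i m
      · obtain ⟨m, hm⟩ := h'
        exact ⟨m, by rw [mul_one]; exact hm⟩
      · simp only [dif_neg h', ne_eq, not_true_eq_false] at h⟩

open Classical in
theorem dlt_apply (hi : Function.Injective i) (n : K) : (dlt i c hi).1 (i n) = c n⁻¹ := by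
  have h : ∃ m, i n = i m := ⟨n, rfl⟩
  have e : h.choose = n := hi h.choose_spec.symm
  change (if h : ∃ m, i n = i m then c h.choose⁻¹ else 0) = _
  rw [dif_pos h, e]

open Classical in
theorem dlt_apply_ne (hi : Function.Injective i) (a : A) (h : ¬ ∃ n, a = i n) : (dlt i c hi).1 a = 0 := by
  change (if h : ∃ m, a = i m then c h.choose⁻¹ else 0) = _
  rw [dif_neg h]

theorem rt_dlt (hi : Function.Injective i) (g : K) : rt i c (i g) (dlt i c hi) = c g • dlt i c hi := by
  refine Subtype.ext (funext fun a => ?_)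
  rw [rt_apply]
  change _ = c g * (dlt i c hi).1 a
  by_cases h : ∃ n, a = i n
  · obtain ⟨n, rfl⟩ := h
    rw [← map_inv, ← map_mul, dlt_apply, dlt_apply, mul_inv_rev, inv_inv, map_mul]
  · rw [dlt_apply_ne i c hi a h, dlt_apply_ne, mul_zero]
    rintro ⟨n, hn⟩
    exact h ⟨n * g, by rw [map_mul, ← hn, inv_mul_cancel_right]⟩

/-- the function with support `i(K) a` and value `1` at `a` -/
def ee (hi : Function.Injective i) (a : A) : FM i c := rt i c a (dlt i c hi)

theorem ee_apply (hi : Function.Injective i) (a : A) (n : K) : (ee i c hi a).1 (i n * a) = c n⁻¹ := by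
  unfold ee
  rw [rt_apply, mul_inv_cancel_right, dlt_apply]

theorem ee_self (hi : Function.Injective i) (a : A) : (ee i c hi a).1 a = 1 := by
  have h := ee_apply i c hi a 1
  rw [map_one, one_mul, inv_one, map_one] at h
  exact h

theorem ee_apply_ne (hi : Function.Injective i) (a b : A) (h : ¬ ∃ n, b = i n * a) : (ee i c hi a).1 b = 0 := by
  unfold ee
  rw [rt_apply]
  refine dlt_apply_ne i c hi _ ?_
  rintro ⟨n, hn⟩
  exact h ⟨n, by rw [← hn, inv_mul_cancel_right]⟩

theorem mem_span_ee (hi : Function.Injective i) (S : Finset A) : ∀ f : FM i c,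
    (∀ a, f.1 a ≠ 0 → ∃ s ∈ S, ∃ n, a = i n * s) → f ∈ Submodule.span R (Set.range (ee i c hi)) := by
  classical
  induction S using Finset.induction_on with
  | empty =>
    intro f hf
    have h : f = 0 := by
      refine Subtype.ext (funext fun a => ?_)
      by_contra h
      obtain ⟨s, hs, _⟩ := hf a h
      exact absurd hs (Finset.notMem_empty s)
    rw [h]
    exact Submodule.zero_mem _
  | insert s S hs ih =>
    intro f hf
    have h1 : f - f.1 s • ee i c hi s ∈ Submodule.span R (Set.range (ee i c hi)) := by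
      refine ih _ fun a ha => ?_
      have e : (f - f.1 s • ee i c hi s).1 a = f.1 a - f.1 s * (ee i c hi s).1 a := rfl
      by_cases hn : ∃ n, a = i n * s
      · obtain ⟨n, rfl⟩ := hn
        exact absurd (by rw [e, ee_apply, f.2.1, sub_self]) ha
      · rw [e, ee_apply_ne i c hi s a hn, mul_zero, sub_zero] at ha
        obtain ⟨t, ht, n, hn'⟩ := hf a ha
        rcases Finset.mem_insert.mp ht with rfl | ht
        · exact absurd ⟨n, hn'⟩ hn
        · exact ⟨t, ht, n, hn'⟩
    have h2 : f = (f - f.1 s • ee i c hi s) + f.1 s • ee i c hi s := by rw [sub_add_cancel]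
    rw [h2]
    exact Submodule.add_mem _ h1 (Submodule.smul_mem _ _ (Submodule.subset_span ⟨s, rfl⟩))

theorem span_ee (hi : Function.Injective i) (f : FM i c) : f ∈ Submodule.span R (Set.range (ee i c hi)) := by
  obtain ⟨_, S, hS⟩ := f.2
  exact mem_span_ee i c hi S f hS

/-- the additive map on rows -/
def phA (hi : Function.Injective i) (r : ℕ) : V7N.RM i r →+ (Fin r → FM i c) where
  toFun v := fun l => ra i c ((show Fin r → MonoidAlgebra ℤ A from v) l) (dlt i c hi)
  map_zero' := by
    funext l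
    change ra i c (0 : MonoidAlgebra ℤ A) (dlt i c hi) = 0
    rw [map_zero]
    rfl
  map_add' v w := by
    funext l
    change ra i c ((show Fin r → MonoidAlgebra ℤ A from v) l + (show Fin r → MonoidAlgebra ℤ A from w) l)
      (dlt i c hi) = _
    rw [map_add]
    rfl

theorem phA_apply (hi : Function.Injective i) (r : ℕ) (v : V7N.RM i r) (l : Fin r) :
    phA i c hi r v l = ra i c ((show Fin r → MonoidAlgebra ℤ A from v) l) (dlt i c hi) := rfl

/-- the map on the tensor product -/
def phF (hi : Function.Injective i) (r : ℕ) : R ⊗[ℤ] V7N.RM i r →ₗ[R] (Fin r → FM i c) :=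
  TensorProduct.AlgebraTensorModule.lift
    (LinearMap.toSpanSingleton R (V7N.RM i r →ₗ[ℤ] (Fin r → FM i c)) (phA i c hi r).toIntLinearMap)

theorem phF_tmul (hi : Function.Injective i) (r : ℕ) (x : R) (v : V7N.RM i r) :
    phF i c hi r (x ⊗ₜ[ℤ] v) = x • phA i c hi r v := rfl

theorem phF_rel (hi : Function.Injective i) (r : ℕ) : V7N.bcR c (V7N.RM i r) ≤ LinearMap.ker (phF i c hi r) := by
  rw [V7N.bcR, Submodule.span_le]
  rintro z ⟨x, g, v, rfl⟩
  rw [SetLike.mem_coe, LinearMap.mem_ker, map_sub, sub_eq_zero, phF_tmul, phF_tmul, mul_smul]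
  congr 1
  funext l
  rw [Pi.smul_apply, phA_apply, phA_apply]
  change c g • ra i c ((show Fin r → MonoidAlgebra ℤ A from v) l) (dlt i c hi) =
    ra i c (V7N.inc i (MonoidAlgebra.single g 1) * (show Fin r → MonoidAlgebra ℤ A from v) l) (dlt i c hi)
  rw [V7N.phi_inc_single, ra_mul, ra_single, one_smul, rt_dlt, ra_smul]

/-- the comparison map -/
def ph (hi : Function.Injective i) (r : ℕ) : V7N.BCG c (V7N.RM i r) →ₗ[R] (Fin r → FM i c) :=
  Submodule.liftQ (V7N.bcR c (V7N.RM i r)) (phF i c hi r) (phF_rel i c hi r)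

theorem ph_mk (hi : Function.Injective i) (r : ℕ) (x : R) (v : V7N.RM i r) :
    ph i c hi r (Submodule.Quotient.mk (x ⊗ₜ[ℤ] v)) = x • phA i c hi r v := rfl

theorem phA_e (hi : Function.Injective i) (r : ℕ) (l : Fin r) (a : A) :
    phA i c hi r (V7N.phi_e i r l (MonoidAlgebra.single a 1)) = Pi.single l (ee i c hi a) := by
  classical
  funext j
  rw [phA_apply]
  change ra i c ((Pi.single l (MonoidAlgebra.single a 1) : Fin r → MonoidAlgebra ℤ A) j) (dlt i c hi) = _
  by_cases h : j = l
  · subst h
    rw [Pi.single_eq_same, Pi.single_eq_same, ra_single, one_smul]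
    rfl
  · rw [Pi.single_eq_of_ne h, Pi.single_eq_of_ne h, map_zero]
    rfl

theorem ph_surj (hi : Function.Injective i) (r : ℕ) : Function.Surjective (ph i c hi r) := by
  classical
  intro w
  have h1 : ∀ (l : Fin r) (f : FM i c), (Pi.single l f : Fin r → FM i c) ∈ LinearMap.range (ph i c hi r) := by
    intro l f
    have hf := span_ee i c hi f
    induction hf using Submodule.span_induction with
    | mem x hx =>
      obtain ⟨a, rfl⟩ := hx
      refine ⟨Submodule.Quotient.mk ((1 : R) ⊗ₜ[ℤ] V7N.phi_e i r l (MonoidAlgebra.single a 1)), ?_⟩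
      rw [ph_mk, one_smul, phA_e]
    | zero =>
      rw [Pi.single_zero]
      exact Submodule.zero_mem _
    | add x y _ _ hx hy =>
      rw [Pi.single_add]
      exact Submodule.add_mem _ hx hy
    | smul a x _ hx =>
      rw [Pi.single_smul]
      exact Submodule.smul_mem _ a hx
  have h2 : w = ∑ l, (Pi.single l (w l) : Fin r → FM i c) := by
    rw [Finset.univ_sum_single]
  have h3 : w ∈ LinearMap.range (ph i c hi r) := by
    rw [h2]
    exact Submodule.sum_mem _ fun l _ => h1 l _
  exact h3

theorem ph_inj (hi : Function.Injective i) (r : ℕ) : Function.Injective (ph i c hi r) := by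
  classical
  rw [← LinearMap.ker_eq_bot, LinearMap.ker_eq_bot']
  intro z hz
  obtain ⟨a, rfl⟩ := V7N.phi_N_surj i c r z
  suffices h : a = 0 by rw [h, map_zero]
  refine Finsupp.ext fun p => ?_
  obtain ⟨l, q⟩ := p
  have h1 : ph i c hi r (V7N.phi_N i c r a) = ∑ p ∈ a.support, a p • (Pi.single p.1 (ee i c hi p.2.out) : Fin r → FM i c) := by
    unfold V7N.phi_N
    rw [Finsupp.linearCombination_apply, Finsupp.sum, map_sum]
    refine Finset.sum_congr rfl fun p _ => ?_
    rw [map_smul]
    change a p • ph i c hi r (Submodule.Quotient.mk ((1 : R) ⊗ₜ[ℤ] V7N.phi_e i r p.1 (MonoidAlgebra.single p.2.out 1))) = _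
    rw [ph_mk, one_smul, phA_e]
  rw [hz] at h1
  have h2 : (0 : FM i c) = ∑ p ∈ a.support, a p • (Pi.single p.1 (ee i c hi p.2.out) : Fin r → FM i c) l := by
    have h3 := congrFun h1 l
    rw [Finset.sum_apply] at h3
    exact h3
  have h4 : (0 : R) = ∑ p ∈ a.support, a p * ((Pi.single p.1 (ee i c hi p.2.out) : Fin r → FM i c) l).1 q.out := by
    have h5 : (0 : R) = (∑ p ∈ a.support, a p • (Pi.single p.1 (ee i c hi p.2.out) : Fin r → FM i c) l).1 q.out :=
      congrArg (fun f : FM i c => f.1 q.out) h2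
    have h6 : (∑ p ∈ a.support, a p • (Pi.single p.1 (ee i c hi p.2.out) : Fin r → FM i c) l).1 q.out =
        ∑ p ∈ a.support, a p * ((Pi.single p.1 (ee i c hi p.2.out) : Fin r → FM i c) l).1 q.out := by
      rw [Submodule.coe_sum, Finset.sum_apply]
      rfl
    rw [h6] at h5
    exact h5
  rw [Finset.sum_eq_single (l, q)] at h4
  · rw [Pi.single_eq_same, ee_self, mul_one] at h4
    rw [← h4]
    rfl
  · rintro ⟨l', q'⟩ _ hne
    by_cases hl : l = l'
    · subst hl
      have hq : q' ≠ q := fun h => hne (by rw [h])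
      rw [Pi.single_eq_same, ee_apply_ne, mul_zero]
      rintro ⟨n, hn⟩
      apply hq
      rw [← Quotient.out_eq q, ← Quotient.out_eq q']
      refine Quotient.sound (s := QuotientGroup.rightRel i.range) (QuotientGroup.rightRel_apply.2 ?_)
      exact ⟨n, by rw [hn, mul_inv_cancel_right]⟩
    · rw [Pi.single_eq_of_ne hl]
      exact mul_zero _
  · intro h
    rw [Finsupp.notMem_support_iff] at h
    rw [h, zero_mul]

theorem ph_dm (hi : Function.Injective i) {a b : ℕ} (D : Matrix (Fin a) (Fin b) (MonoidAlgebra ℤ A))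
    (y : V7N.BCG c (V7N.RM i a)) : ph i c hi b (V7N.bcM c (V7N.dm i D) y) = mv i c (ph i c hi a y) D := by
  obtain ⟨z, rfl⟩ := Submodule.Quotient.mk_surjective _ y
  induction z using TensorProduct.induction_on with
  | zero =>
    rw [Submodule.Quotient.mk_zero, map_zero, map_zero, map_zero]
    funext l
    unfold mv
    simp only [Pi.zero_apply, map_zero, Finset.sum_const_zero]
  | add x y hx hy =>
    rw [Submodule.Quotient.mk_add, map_add, map_add, map_add, hx, hy]
    funext l
    unfold mv
    simp only [Pi.add_apply, map_add, Finset.sum_add_distrib]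
  | tmul x v =>
    rw [V7N.bcM_mk, ph_mk, ph_mk]
    funext l
    rw [Pi.smul_apply, phA_apply]
    have h4 : (show Fin b → MonoidAlgebra ℤ A from V7N.dm i D v) l =
      ∑ k, ((show Fin a → MonoidAlgebra ℤ A from v) k) * D k l := rfl
    rw [h4, map_sum, AddMonoidHom.finsetSum_apply, Finset.smul_sum]
    unfold mv
    refine Finset.sum_congr rfl fun k _ => ?_
    rw [Pi.smul_apply, phA_apply, ra_mul, ra_smul]

end alg

theorem main {A K R : Type} [Group A] [Group K] [Ring R] (i : K →* A) (c : K →* R) (hi : Function.Injective i)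
    (C : V7N.FreeRes A) (k : ℕ)
    (h : ∀ y : Fin (C.r (k + 1)) → FM i c, mv i c y (C.d k) = 0 →
      ∃ w : Fin (C.r (k + 2)) → FM i c, mv i c w (C.d (k + 1)) = y) :
    Subsingleton (((V7N.bcF c).leftDerived (k + 1)).obj (V7N.trivG K)) := by
  obtain ⟨P, hP⟩ := V7N.proj_res C i hi
  have h1 : Nonempty (((V7N.bcF c).leftDerived (k + 1)).obj (V7N.trivG K) ≅
      (((V7N.bcF c).mapHomologicalComplex (ComplexShape.down ℕ)).obj P.complex).homology (k + 1)) :=
    ⟨P.isoLeftDerivedObj (V7N.bcF c) (k + 1)⟩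
  rw [hP] at h1
  obtain ⟨i1⟩ := h1
  have l1 := i1.toLinearEquiv
  obtain ⟨l2⟩ := V7N.homology_succ
    (((V7N.bcF c).mapHomologicalComplex (ComplexShape.down ℕ)).obj (V7N.resC C i)) k
  have d1 : (((V7N.bcF c).mapHomologicalComplex (ComplexShape.down ℕ)).obj (V7N.resC C i)).d
      (k + 1 + 1) (k + 1) = ModuleCat.ofHom (V7N.bcM c (V7N.dm i (C.d (k + 1)))) := by
    change (V7N.bcF c).map ((V7N.resC C i).d (k + 1 + 1) (k + 1)) = _
    rw [V7N.ts_resC_d]
    rfl
  have d0 : (((V7N.bcF c).mapHomologicalComplex (ComplexShape.down ℕ)).obj (V7N.resC C i)).d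
      (k + 1) k = ModuleCat.ofHom (V7N.bcM c (V7N.dm i (C.d k))) := by
    change (V7N.bcF c).map ((V7N.resC C i).d (k + 1) k) = _
    rw [V7N.ts_resC_d]
    rfl
  rw [d1, d0] at l2
  have key : ∀ y : V7N.BCG c (V7N.RM i (C.r (k + 1))), V7N.bcM c (V7N.dm i (C.d k)) y = 0 →
      ∃ w, V7N.bcM c (V7N.dm i (C.d (k + 1))) w = y := by
    intro y hy
    obtain ⟨w, hw⟩ := h (ph i c hi _ y) (by rw [← ph_dm, hy, map_zero])
    obtain ⟨w', rfl⟩ := ph_surj i c hi _ w
    refine ⟨w', ph_inj i c hi _ ?_⟩
    rw [ph_dm, hw]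
  have hz : ∀ q : (LinearMap.ker (ModuleCat.ofHom (V7N.bcM c (V7N.dm i (C.d k)))).hom) ⧸
        (LinearMap.range (ModuleCat.ofHom (V7N.bcM c (V7N.dm i (C.d (k + 1))))).hom).submoduleOf
          (LinearMap.ker (ModuleCat.ofHom (V7N.bcM c (V7N.dm i (C.d k)))).hom), q = 0 := by
    intro q
    obtain ⟨⟨y, hy⟩, rfl⟩ := Submodule.Quotient.mk_surjective _ q
    refine (Submodule.Quotient.mk_eq_zero _).mpr ?_
    obtain ⟨w, hw⟩ := key y hy
    exact ⟨w, hw⟩
  exact ⟨fun a b => (l1.trans l2).injective ((hz _).trans (hz _).symm)⟩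

theorem t : Pool.Agent.H77N.SHA := fun _ _ _ _ _ _ i c hi C k h => main i c hi C k h

end Pool.Agent.H77N.SHA
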