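import Pool.Agent.H77N.Defs
import Pool.Agent.H77GP.A9
import Pool.Agent.H77GP.A8

/-!
# Subgroups of right-angled Artin groups: the list of statements

Theorem N (MP_8fe54c_gt, slot 4): if a subgroup `N` of a right-angled Artin group acts properly discontinuously on a
contractible `n`-manifold, `2 k > n`, and `H_{k-1}(Lk τ; ℚ) = 0` (reduced) for all cliques `τ` such that a conjugate of
`⟨τ ∪ {u}⟩` meets `N` trivially for some vertex `u` of `Lk τ`, then `b_k(N) = 0`.

Each stub `X` below: prove `theorem Pool.Agent.H77N.X.t : Pool.Agent.H77N.X` in the file `Pool/Agent/H77N/X.lean`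
(`import Pool.Agent.H77N.Stm`, `namespace Pool.Agent.H77N.X`).
-/

set_option autoImplicit false
set_option linter.unusedSectionVars false

noncomputable section

namespace Pool.Agent.H77N

open Finset Pool.Agent.W326.DU Pool.Agent.H77RA Pool.Agent.Q18.HC.BB
open scoped Manifold ContDiff

attribute [local instance] V7N.bcF_additive

/-- **ALG** (linear algebra of the Koszul type complex; about 150 lines).
`R v` are commuting (along edges) endomorphisms of an abelian group `M`, with `R v` injective modulo `Im R τ` for `τ` a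
clique and `v` in its link.  If for each clique `τ` the simplicial complex of the link of `τ` is exact in degree `k`
with coefficients in `M / Im R τ`, then the complex with differential `bdR R` is exact in degree `k`.

Proof.  For a finite set `X` of vertices let `R^X v = R v` for `v ∈ X` and `R^X v = id` otherwise.  Show by induction on
`X` (`Finset.induction_on`) for all cliques `τ` the statement `E(X, τ)`: if `z` has `Sup G (lk G τ) k z` and
`bdR R^X z T ∈ Im R τ` for all `T`, then there is `w` with `Sup G (lk G τ) (k+1) w` and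
`bdR R^X w T - z T ∈ Im R τ` for all `T`.  `E(∅, τ)` is the hypothesis and `E(univ, ∅)` the claim (`lk G ∅ = univ`,
`Im R ∅ = 0`).  Step from `X' = X \ {x}` to `X`, `x ∉ X'`.  If `x ∉ lk G τ`, then the two differentials agree on chains
supported in `lk G τ`.  Let `x ∈ lk G τ` and let `z` be as in `E(X, τ)`.  Put `(Φ z) T = R x (z T)` if `x ∈ T`, and
`(Φ z) T = z T` otherwise.  Then `bdR R^{X'} (Φ z) = Φ (bdR R^X z)` (for `T ∋ x` use that `R x` commutes with `R^X v`,
`v` adjacent to `x`; if `z (insert v T) ≠ 0` then it is a clique), and `Φ` preserves chains with values in `Im R τ`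
(`R x` commutes with the `R u`, `u ∈ τ`).  By `E(X', τ)` there is `y`, `Sup G (lk G τ) (k+1) y`, with
`bdR R^{X'} y ≡ Φ z` modulo `Im R τ`.  Let `y_x T = y (insert x T)` for `x ∉ T` (zero otherwise); it is supported on
cliques of `lk G (insert x τ)` with `k` vertices, and `bdR R^{X'} y_x T = ± (bdR R^{X'} y) (insert x T) ≡ ± R x (z ..) ≡ 0`
modulo `Im R (insert x τ)` (for signs: `sgn v (insert x T) = ± sgn v T`, see `sgn_insert`; put the sign
`sgn x T` into the definition of `y_x`).
By `E(X', insert x τ)` there is `w'` supported on cliques of `lk G (insert x τ)` with `k + 1` vertices and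
`bdR R^{X'} w' ≡ y_x` modulo `Im R (insert x τ)`.  With `w T = ± w' (T.erase x)` for `x ∈ T` (zero otherwise) the chain
`y' = y - bdR R^{X'} w` satisfies `y' T ∈ Im R (insert x τ) = Im R τ + range (R x)` for all `T ∋ x`, and still
`bdR R^{X'} y' ≡ Φ z` modulo `Im R τ` (`bdR_bdR`).  So for `T ∋ x` there is `q T` (zero if `y' T = 0`) with
`y' T - R x (q T) ∈ Im R τ`.  Put `u T = q T` for `x ∈ T`, `u T = y' T` otherwise.  Then `Φ u ≡ y'`, so
`Φ (bdR R^X u - z) ≡ 0` modulo `Im R τ`, and the injectivity hypothesis gives `bdR R^X u ≡ z` modulo `Im R τ`.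
Tools: `Pool.Agent.H77RA.bdR_add, bdR_sub, bdR_bdR, sgn_insert` (H77RA/A1.lean, where the theorem `exact` is a model
for this kind of computation), `Pool.Agent.W304.DU.mem_Im, range_mem_Im`. -/
def ALG : Prop := ∀ (V : Type) [Fintype V] [LinearOrder V] (G : SimpleGraph V) (M : Type) [AddCommGroup M]
  (R : V → M →+ M) (k : ℕ),
  (∀ a b, G.Adj a b → ∀ x, R a (R b x) = R b (R a x)) →
  (∀ (τ : Finset V) (v : V), G.IsClique (τ : Set V) → v ∈ lk G τ → ∀ x, R v x ∈ Im R (τ : Set V) →
    x ∈ Im R (τ : Set V)) →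
  (∀ τ : Finset V, G.IsClique (τ : Set V) → ∀ a : Finset V → M, Sup G (lk G τ) k a →
    (∀ T, sb a T ∈ Im R (τ : Set V)) →
    ∃ b, Sup G (lk G τ) (k + 1) b ∧ ∀ T, sb b T - a T ∈ Im R (τ : Set V)) →
  ∀ z : Finset V → M, Sup G univ k z → bdR R z = 0 → ∃ w, Sup G univ (k + 1) w ∧ bdR R w = z

/-- **LIN** (about 80 lines).  Rational exactness of the simplicial complex of the cliques in `S` implies exactness with
coefficients in the quotient of a module over a ring containing `ℚ`.
Proof.  Make `M` a vector space over `ℚ` by `Module.compHom M κ`; `I` is a subspace.  Let `B` be a basis of the quotient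
`M / I`.  Each coordinate of the chain `T ↦ [a T]` is a rational chain with the same support property and boundary
zero; choose rational primitives for the finitely many nonzero coordinates (zero for the others), sum up, and lift the
values from `M / I` to `M` (lifting `0` to `0`). -/
def LIN : Prop := ∀ (V : Type) [Fintype V] [LinearOrder V] (G : SimpleGraph V) (S : Finset V) (k : ℕ)
  (U M : Type) [Ring U] [AddCommGroup M] [Module U M] (_ : ℚ →+* U) (I : Submodule U M), QEx G S k →
  ∀ a : Finset V → M, Sup G S k a → (∀ T, sb a T ∈ I) → ∃ b, Sup G S (k + 1) b ∧ ∀ T, sb b T - a T ∈ I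

/-- **MOD** (about 250 lines).  Two facts on the module `FM i c` of functions `f : A → R` with `f (i n * a) = f a * c n⁻¹`
(`n ∈ K`) with support in finitely many cosets `i(K) s`, on which `A` acts from the right by
`(rt g f) a = f (a * g⁻¹)`, and on its submodule `IM T` spanned by the `rt u f - f`, `u ∈ T`.

Put `e r a` for the function with support `i(K) a` and value `r` at `a` (so `(e r a) (i n * a) = r * c n⁻¹`; well
defined because `i` is injective).  Then `e (r * c n) a = e r (i n * a)`, `rt g (e r a) = e r (a * g)`, and `FM` is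
spanned by the `e r a`.  Let `⟨T⟩ = Subgroup.closure T`.  For `t ∈ ⟨T⟩` one has `e r (a * t) - e r a ∈ IM T`
(`Subgroup.closure_induction`; the set of `t` with `rt t f - f ∈ IM T` for all `f` is a subgroup).
(Z) If `n ≠ 1`, `i n = g * t * g⁻¹`, `t ∈ ⟨T⟩`, then all `e r g` are in `IM T`: `t ≠ 1` has infinite order, so has `n`,
so `c n - 1` is a unit; `e (r * c n) g = e r (i n * g) = e r (g * t) ≡ e r g`, so `e (r * (c n - 1)) g ∈ IM T` for all
`r`.  This proves the second claim.
(I) First claim.  If `g ∈ A` is such that no `n ≠ 1` has `i n ∈ g ⟨T⟩ g⁻¹` (call `g` free), then `g ⟨T⟩` meets every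
coset `i(K) s` in at most one point, so `Th g f = ∑ᶠ t ∈ ⟨T⟩, f (g * t)` is a finite sum; it is additive in `f`,
invariant under `rt u`, `u ∈ ⟨T⟩`, hence vanishes on `IM T`; `Th (i n * g) f = Th g f * c n⁻¹`,
`Th (g * t) f = Th g f` for `t ∈ ⟨T⟩`, and `Th g (rt v f) = Th (g * v⁻¹) f` since `v` commutes with `⟨T⟩`.  If
`rt v f - f ∈ IM T`, then `Th (g * v⁻¹) f = Th g f` for all free `g`, so `Th (g * v ^ m) f = Th g f` for all `m : ℤ`.
If this is not zero, then the sets `g * v ^ m * ⟨T⟩`, `m ∈ ℕ`, all meet the support of `f`, so two of them meet the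
same coset `i(K) s`: there are `n` and `m ≠ 0`, `t ∈ ⟨T⟩` with `i n * g = g * v ^ m * t`; then
`Th g f = Th (g * v ^ m * t) f = Th (i n * g) f = Th g f * c n⁻¹` and `n` has infinite order, as `v ^ m * t` has;
since `c n - 1` is a unit, `Th g f = 0`.  So `Th g f = 0` for all free `g`.  Finally `f ≡ ∑ e r_D g_D` modulo `IM T`
with representatives `g_D` of the double cosets `i(K) g ⟨T⟩` (finitely many, e.g. by induction over the span of the
`e r a`), the summands with `g_D` not free are in `IM T` by (Z), and for `g_D` free `r_D = Th g_D f = 0`. -/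
def MOD : Prop := ∀ (A K R : Type) [Group A] [Group K] [Ring R] (i : K →* A) (c : K →* R) (T : Set A),
  Function.Injective i → (∀ n : K, ¬ IsOfFinOrder n → IsUnit (c n - 1)) →
  (∀ t ∈ Subgroup.closure T, t ≠ 1 → ¬ IsOfFinOrder t) →
  (∀ v : A, (∀ u ∈ T, Commute u v) → (∀ (m : ℤ) (t : A), m ≠ 0 → t ∈ Subgroup.closure T → ¬ IsOfFinOrder (v ^ m * t)) →
    ∀ f : FM i c, rt i c v f - f ∈ IM i c T → f ∈ IM i c T) ∧
  ((∀ g : A, ∃ n : K, n ≠ 1 ∧ ∃ t ∈ Subgroup.closure T, i n = g * t * g⁻¹) → IM i c T = ⊤)

/-- **SHA** (Shapiro; about 200 lines).  `Tor` over `ℤ[K]` with coefficients in `R` from a resolution over `ℤ[A]`.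
Proof.  `V7N.proj_res C i hi` (Helper970/V7/P_proj_res.lean) gives a projective resolution `P` of `V7N.trivG K` with
`P.complex = V7N.resC C i`; as in `Pool.Agent.H77GP.homR_succ` (H77GP/A7.lean) and `V7N.v7_succ`
(Helper970/V7/P_v7_succ.lean, lemmas `ts_resC_d`, `V7N.homology_succ`) the derived functor is
`ker (bcM c (dm i (C.d k))) / range (bcM c (dm i (C.d (k+1))))`.  There are bijections
`Φ_r : V7N.BCG c (V7N.RM i r) → (Fin r → FM i c)`, `r' ⊗ x ↦ (l ↦ r' • ∑_a x_l(a) • e 1 a)`, where `e s a` is the function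
with support `i(K) a`, value `s` at `a` (well defined because `i` is injective).  It respects the relations
(`(x * c g) ⊗ p = x ⊗ g p`), is onto, and injective: with representatives `rep, kk` of the cosets
(`V7N.exists_rep i hi`: `i (kk a) * rep a = a`) the map `m ↦ ∑_l ∑_{t = rep t} m_l(t) ⊗ t ε_l` (finite sum) is inverse
(check on `r' ⊗ a ε_l`, `r' ⊗ a ε_l = r' c(kk a) ⊗ (rep a) ε_l`).  Moreover `Φ (bcM c (dm i D) y) = mv (Φ y) D`
(check on `r' ⊗ a ε_l`, using `rt g (e s a) = e s (a * g)`). -/
def SHA : Prop := ∀ (A K R : Type) [Group A] [Group K] [Ring R] (i : K →* A) (c : K →* R) (_ : Function.Injective i)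
  (C : V7N.FreeRes A) (k : ℕ),
  (∀ y : Fin (C.r (k + 1)) → FM i c, mv i c y (C.d k) = 0 →
    ∃ w : Fin (C.r (k + 2)) → FM i c, mv i c w (C.d (k + 1)) = y) →
  Subsingleton (((V7N.bcF c).leftDerived (k + 1)).obj (V7N.trivG K))

/-- **RAG** (about 100 lines).  Exactness of the complex with differential `bdR (RF i c)` on functions on all finite sets
implies exactness for the matrices of the resolution `raagRes G` (H77RA/A2.lean).
Proof.  `mv i c w (dMat G f n) = frC G n (bdR (RF i c) (toC G (n + 1) w))` for `f v = of (gen v) - 1`: copy the proof of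
`Pool.Agent.H77RA.vecMul_dMat`, with `w * f v` replaced by `ra i c (f v) w`, `ra i c (of (gen v) - 1) = RF i c v`
(`ra_of`, `ra_single` with `1 = single 1 1`, `rt_one`); `ra i c` is additive.  Then argue with `toC, frC, toC_sup,
toC_frC, frC_toC, bdR_sup, frC_inj` as in the definition of `raagRes`. -/
def RAG : Prop := ∀ (V : Type) [Fintype V] [LinearOrder V] (G : SimpleGraph V) (K R : Type) [Group K] [Ring R]
  (i : K →* RAAG G.Adj) (c : K →* R) (k : ℕ),
  (∀ z : Finset V → FM i c, Sup G univ (k + 1) z → bdR (RF i c) z = 0 →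
    ∃ w, Sup G univ (k + 2) w ∧ bdR (RF i c) w = z) →
  ∀ y : Fin ((raagRes G).r (k + 1)) → FM i c, mv i c y ((raagRes G).d k) = 0 →
    ∃ w : Fin ((raagRes G).r (k + 2)) → FM i c, mv i c w ((raagRes G).d (k + 1)) = y

/-- **TOR** (about 50 lines).  Elements of clique subgroups have infinite order.
Proof.  `para G τ` is generated by commuting elements; its elements are products of powers of the `gen v`, `v ∈ τ`
(e.g. `gL G a` with `a` supported in `τ`, H77RA/D1.lean: `gL_add, gL_zero`; the elements of this form are a subgroup).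
The homomorphisms `chi G v` (`chi_gen, chi_gL`) to `Multiplicative ℤ` give the exponents, so an element with a nonzero
exponent has infinite order. -/
def TOR : Prop := ∀ (V : Type) [Fintype V] [LinearOrder V] (G : SimpleGraph V) (τ : Finset V),
  G.IsClique (τ : Set V) → (∀ t ∈ para G (τ : Set V), t ≠ 1 → ¬ IsOfFinOrder t) ∧
  ∀ v ∈ lk G τ, ∀ (m : ℤ) (t : RAAG G.Adj), m ≠ 0 → t ∈ para G (τ : Set V) → ¬ IsOfFinOrder (gen G.Adj v ^ m * t)

/-- **GEO** (about 200 lines).  The action on the contractible manifold.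
Proof.  Let `V' = {u // u ∈ lk G τ}`, `G' = G.comap Subtype.val`, and choose for `u : V'` the elements
`a_u = g * (gen u ^ m_u * t_u) * g⁻¹` of `N`.  For adjacent `u, u'` they commute (`τ` is a clique whose vertices are
adjacent to `u, u'`), so there is a homomorphism `ρ : RAAG G'.Adj →* N` with `ρ (gen u) = a_u` (as `rhoA` in
H77GP/A9.lean).  `SepH G' ρ` (H77AR/F1.lean) as in `sepH_GP`: the homomorphism `chi G v` of H77RA/D1.lean maps
`ρ ((gL a)⁻¹ * gL a')` to `m_v * (a' v - a v)` for `v ∈ lk G τ` (it is zero on `para G τ`, since `v ∉ τ`), and it is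
bounded on a finite set.  Then copy the proof of `pairing_GP` (H77GP/A9.lean) with `exists_f1g G' ρ`, and
`clique_exact G' j _ (RingHom.id ℚ)` gives exactness over `ℚ` for the graph `G'` (`Sup G' univ (j+1)`; `bd` there is
`bdR (fun _ => AddMonoidHom.id R)`).  Transfer to `QEx G (lk G τ) (j+1)`: for `a : Finset V → ℚ` put
`a' T' = a (T'.map (Function.Embedding.subtype _))`; signs agree since the embedding is increasing. -/
def GEO : Prop := ∀ (V : Type) [Fintype V] [LinearOrder V] (G : SimpleGraph V) (N : Subgroup (RAAG G.Adj))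
  (g : RAAG G.Adj) (τ : Finset V), G.IsClique (τ : Set V) →
  (∀ u ∈ lk G τ, ∃ (m : ℤ) (t : RAAG G.Adj), m ≠ 0 ∧ t ∈ para G (τ : Set V) ∧
    g * (gen G.Adj u ^ m * t) * g⁻¹ ∈ N) →
  ∀ (E : Type) [NormedAddCommGroup E] [NormedSpace ℝ E] [FiniteDimensional ℝ E] (HH : Type) [TopologicalSpace HH]
    (_ : ModelWithCorners ℝ E HH) (W : Type) [TopologicalSpace W] [T2Space W] [ChartedSpace HH W]
    [ContractibleSpace W] [MulAction N W] [ContinuousConstSMul N W] [ProperlyDiscontinuousSMul N W] (j : ℕ),
    Module.finrank ℝ E < 2 * (j + 1) → QEx G (lk G τ) (j + 1)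

/-- **PEK** (about 40 lines).  One degree of the passage from `Tor` to chains of lists: this is `PE_of_homR` (H77GP/A7.lean)
for one degree; its proof uses the hypothesis only in the degree considered.  Copy the case `succ` of that proof, with
`i = MonoidHom.id K` (or any injective `i`), and `c.comp (MonoidHom.id K) = c`. -/
def PEK : Prop := ∀ (K R : Type) [Group K] [Ring R] (c : K →* R) (k : ℕ),
  Subsingleton (((V7N.bcF c).leftDerived (k + 1)).obj (V7N.trivG K)) →
  ∀ x ∈ Pool.Agent.H77GP.dg K R (k + 2), Pool.Agent.H77GP.dd x ∈ Pool.Agent.H77GP.Jt c ⊤ →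
    ∃ y ∈ Pool.Agent.H77GP.dg K R (k + 3), x - Pool.Agent.H77GP.dd y ∈ Pool.Agent.H77GP.Jt c ⊤

end Pool.Agent.H77N
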