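import Pool.Agent.H77N.Stm

/-!
# TOR: elements of clique subgroups of right-angled Artin groups have infinite order
-/

set_option autoImplicit false
set_option linter.unusedSectionVars false

namespace Pool.Agent.H77N.TOR

open Finset Pool.Agent.W326.DU Pool.Agent.H77RA Pool.Agent.H77N

variable {V : Type} [Fintype V] [LinearOrder V] (G : SimpleGraph V)

theorem list_single {Γ : Type} [Group Γ] (g : V → Γ) (u : V) (l : List V) (hl : l.Nodup) :
    (l.map (fun v => g v ^ (Pi.single u (1 : ℤ) : V → ℤ) v)).prod = if u ∈ l then g u else 1 := by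
  induction l with
  | nil => simp
  | cons x l ih =>
    rw [List.nodup_cons] at hl
    rw [List.map_cons, List.prod_cons, ih hl.2]
    by_cases hx : u = x
    · subst hx
      rw [if_neg hl.1, if_pos List.mem_cons_self, Pi.single_eq_same, zpow_one, mul_one]
    · rw [Pi.single_eq_of_ne (fun h => hx h.symm), zpow_zero, one_mul]
      by_cases h : u ∈ l
      · rw [if_pos h, if_pos (List.mem_cons_of_mem _ h)]
      · rw [if_neg h, if_neg]
        intro h2
        rcases List.mem_cons.1 h2 with h3 | h3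
        · exact hx h3
        · exact h h3

theorem gL_single (u : V) : gL G (Pi.single u 1) = gen G.Adj u := by
  unfold gL
  have h := list_single (gen G.Adj) u (univ : Finset V).toList (Finset.nodup_toList _)
  rw [if_pos (by rw [Finset.mem_toList]; exact Finset.mem_univ u)] at h
  rw [← h]

theorem mem_para {τ : Finset V} (hτ : G.IsClique (τ : Set V)) {t : RAAG G.Adj}
    (ht : t ∈ para G (τ : Set V)) : ∃ a : V → ℤ, (∀ v, v ∉ τ → a v = 0) ∧ t = gL G a := by
  unfold para at ht
  induction ht using Subgroup.closure_induction with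
  | mem x hx =>
    obtain ⟨u, hu, rfl⟩ := hx
    refine ⟨Pi.single u 1, fun v hv => Pi.single_eq_of_ne ?_ _, (gL_single G u).symm⟩
    intro h
    rw [h] at hv
    exact hv hu
  | one => exact ⟨0, fun _ _ => rfl, (gL_zero G).symm⟩
  | mul x y _ _ hx hy =>
    obtain ⟨a, ha, rfl⟩ := hx
    obtain ⟨b, hb, rfl⟩ := hy
    refine ⟨a + b, fun v hv => by rw [Pi.add_apply, ha v hv, hb v hv, add_zero], (gL_add G ?_).symm⟩
    refine hτ.subset ?_
    intro v hv
    by_contra h
    rcases hv with h1 | h1
    · exact h1 (ha v h)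
    · exact h1 (hb v h)
  | inv x _ hx =>
    obtain ⟨a, ha, rfl⟩ := hx
    refine ⟨-a, fun v hv => by rw [Pi.neg_apply, ha v hv, neg_zero], ?_⟩
    rw [inv_eq_iff_mul_eq_one, ← gL_add, add_neg_cancel, gL_zero]
    refine hτ.subset ?_
    intro v hv
    by_contra h
    rcases hv with h1 | h1
    · exact h1 (ha v h)
    · exact h1 (by rw [Pi.neg_apply, ha v h, neg_zero])

theorem not_fin (v : V) (t : RAAG G.Adj) (k : ℤ) (hk : k ≠ 0) (h : chi G v t = Multiplicative.ofAdd k) :
    ¬ IsOfFinOrder t := by
  intro hf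
  rw [isOfFinOrder_iff_pow_eq_one] at hf
  obtain ⟨n, hn, h1⟩ := hf
  have h2 := congrArg (chi G v) h1
  rw [map_pow, map_one, h, ← ofAdd_nsmul, ofAdd_eq_one, nsmul_eq_mul] at h2
  rcases mul_eq_zero.1 h2 with h3 | h3
  · have : n = 0 := by exact_mod_cast h3
    omega
  · exact hk h3

theorem t : Pool.Agent.H77N.TOR := by
  intro V _ _ G τ hτ
  refine ⟨?_, ?_⟩
  · intro t ht ht1
    obtain ⟨a, ha, rfl⟩ := mem_para G hτ ht
    have h1 : ∃ v, a v ≠ 0 := by
      by_contra h
      push Not at h
      apply ht1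
      have : a = 0 := funext h
      rw [this, gL_zero]
    obtain ⟨v, hv⟩ := h1
    exact not_fin G v _ (a v) hv (chi_gL G v a)
  · intro v hv m t hm ht
    obtain ⟨a, ha, rfl⟩ := mem_para G hτ ht
    have hvτ : v ∉ τ := by
      intro h
      exact G.loopless.irrefl v ((mem_lk G).1 hv v h)
    apply not_fin G v _ m hm
    rw [map_mul, map_zpow, chi_gen, chi_gL, ha v hvτ, if_pos rfl, ofAdd_zero, mul_one, ← ofAdd_zsmul,
      smul_eq_mul, mul_one]

end Pool.Agent.H77N.TOR
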